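import Pool.Agent.Helper52.KP.StG

/-!
# Project KP, module NEA (nilpotent points of the right rank near `x` are on the orbit)
-/

set_option autoImplicit false

namespace Pool.Agent.Helper22.KP

open Pool.Agent.Helper67.NO MeasureTheory Filter Pool.Agent.Helper52.KP
open scoped ContDiff ComplexOrder Topology

universe u

theorem hNEA (h1 : StJM.{u}) (h2 : StORB.{u}) (h3 : StSLI.{u}) (h4 : StPRD.{u}) : StNEA.{u} := by
  intro g _ _ _ _ x hx hnil k X hX
  obtain ⟨h, f, hT⟩ := h1 g x hx hnil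
  obtain ⟨ε₀, hε₀, hsli⟩ := h3 g x h f hT hnil
  obtain ⟨W, S, δ, ε, hδ, hε, hWd, hA, hB⟩ := h4 g x h f hT hnil k X hX ε₀ hε₀
  refine ⟨W, δ, ε, hδ, hε, hWd, ?_, ?_⟩
  · intro y hy hyn hyr
    obtain ⟨e1, e2, e3, _⟩ := hA y hy
    obtain ⟨v, hv⟩ : ∃ v, v = ∑ j, W y j • X j := ⟨_, rfl⟩
    rw [← hv] at e1
    have e4 : expAd (-v) y = x + S y := by
      have := ((h2 g).1 v (x + S y) (x + S y)).2.1
      rw [← e1] at this
      exact this
    have hS : S y = 0 := by
      refine hsli (S y) e2 e3 ?_ ?_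
      · rw [← e4]
        exact ((h2 g).1 (-v) y y).2.2.2.2 hyn
      · rw [← e4, ((h2 g).1 (-v) y y).2.2.2.1, hyr]
    rw [hS, add_zero, hv] at e1
    exact e1
  · intro w hw
    have h0 : size (0 : g) < ε := by
      have : size (0 : g) = 0 := by simp [size]
      rw [this]
      exact hε
    obtain ⟨b1, b2, _⟩ := hB w 0 hw h0 (lie_zero f)
    rw [add_zero] at b1 b2
    exact ⟨b1, b2⟩

end Pool.Agent.Helper22.KP
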