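import Pool.Agent.Helper52.KP.StL

/-!
# Project KP, module BSI (basic inequality)
-/

set_option autoImplicit false

namespace Pool.Agent.Helper22.KP

open MeasureTheory Filter Pool.Agent.Helper52.KP
open scoped ContDiff ComplexOrder Topology

variable {m : ℕ}

/-- the weighted measure -/
noncomputable def mw (ψ : (Fin m → ℂ) → ℝ) : Measure (Fin m → ℂ) :=
  volume.withDensity fun z => ENNReal.ofReal (Real.exp (-ψ z))

lemma mw_meas {ψ : (Fin m → ℂ) → ℝ} (hψ : Continuous ψ) :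
    Measurable fun z => ENNReal.ofReal (Real.exp (-ψ z)) :=
  (ENNReal.continuous_ofReal.comp (Real.continuous_exp.comp hψ.neg)).measurable

lemma mw_ac {ψ : (Fin m → ℂ) → ℝ} : mw ψ ≪ volume := withDensity_absolutelyContinuous _ _

lemma mw_ac' {ψ : (Fin m → ℂ) → ℝ} (hψ : Continuous ψ) : (volume : Measure (Fin m → ℂ)) ≪ mw ψ := by
  apply withDensity_absolutelyContinuous' (mw_meas hψ).aemeasurable
  filter_upwards with z
  simp [Real.exp_pos]

lemma mw_integral {ψ : (Fin m → ℂ) → ℝ} (hψ : Continuous ψ) {E : Type*} [NormedAddCommGroup E]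
    [NormedSpace ℝ E] (f : (Fin m → ℂ) → E) :
    ∫ z, f z ∂(mw ψ) = ∫ z, Real.exp (-ψ z) • f z := by
  unfold mw
  rw [integral_withDensity_eq_integral_toReal_smul (mw_meas hψ)]
  · congr 1
    funext z
    rw [ENNReal.toReal_ofReal (Real.exp_pos _).le]
  · filter_upwards with z using ENNReal.ofReal_lt_top

lemma mw_integrable {ψ : (Fin m → ℂ) → ℝ} (hψ : Continuous ψ) {E : Type*} [NormedAddCommGroup E]
    [NormedSpace ℝ E] (f : (Fin m → ℂ) → E) :
    Integrable f (mw ψ) ↔ Integrable fun z => Real.exp (-ψ z) • f z := by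
  unfold mw
  rw [integrable_withDensity_iff_integrable_smul' (mw_meas hψ)]
  · have : (fun z => (ENNReal.ofReal (Real.exp (-ψ z))).toReal • f z) =
        fun z => Real.exp (-ψ z) • f z := by
      funext z
      rw [ENNReal.toReal_ofReal (Real.exp_pos _).le]
    rw [this]
  · filter_upwards with z using ENNReal.ofReal_lt_top

lemma l2_iff {ψ : (Fin m → ℂ) → ℝ} (hψ : Continuous ψ) (f : (Fin m → ℂ) → ℂ) :
    L2 Set.univ ψ f ↔ MemLp f 2 (mw ψ) := by
  unfold L2
  rw [Measure.restrict_univ, integrableOn_univ]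
  constructor
  · rintro ⟨h1, h2⟩
    rw [memLp_two_iff_integrable_sq_norm (h1.mono_ac mw_ac), mw_integrable hψ]
    refine h2.congr ?_
    filter_upwards with z
    rw [smul_eq_mul, mul_comm]
  · intro h
    have h1 : AEStronglyMeasurable f volume := h.1.mono_ac (mw_ac' hψ)
    refine ⟨h1, ?_⟩
    rw [memLp_two_iff_integrable_sq_norm h.1, mw_integrable hψ] at h
    refine h.congr ?_
    filter_upwards with z
    rw [smul_eq_mul, mul_comm]

lemma nrm_int {ψ : (Fin m → ℂ) → ℝ} (hψ : Continuous ψ) (f : (Fin m → ℂ) → ℂ) :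
    nrm Set.univ ψ f = ∫ z, ‖f z‖ ^ 2 ∂(mw ψ) := by
  unfold nrm
  rw [Measure.restrict_univ, mw_integral hψ]
  congr 1
  funext z
  rw [smul_eq_mul, mul_comm]

lemma nrm_lp {ψ : (Fin m → ℂ) → ℝ} (hψ : Continuous ψ) {f : (Fin m → ℂ) → ℂ}
    (hf : MemLp f 2 (mw ψ)) : nrm Set.univ ψ f = ‖hf.toLp f‖ ^ 2 := by
  rw [nrm_int hψ, Lp.norm_toLp, hf.eLpNorm_eq_integral_rpow_norm (by norm_num) (by norm_num)]
  have h0 : 0 ≤ ∫ z, ‖f z‖ ^ 2 ∂(mw ψ) := integral_nonneg fun z => by positivity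
  have h1 : (∫ z, ‖f z‖ ^ (2 : ENNReal).toReal ∂(mw ψ)) = ∫ z, ‖f z‖ ^ 2 ∂(mw ψ) := by
    congr 1
    funext z
    simp
  rw [h1, ENNReal.toReal_ofReal (Real.rpow_nonneg h0 _)]
  rw [← Real.rpow_natCast, ← Real.rpow_mul h0]
  simp

lemma nrm_sub {ψ : (Fin m → ℂ) → ℝ} (hψ : Continuous ψ) {f g : (Fin m → ℂ) → ℂ}
    (hf : MemLp f 2 (mw ψ)) (hg : MemLp g 2 (mw ψ)) :
    nrm Set.univ ψ (fun z => f z - g z) = ‖hf.toLp f - hg.toLp g‖ ^ 2 := by
  rw [← MemLp.toLp_sub, ← nrm_lp hψ]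
  rfl

lemma nrm_nonneg (ψ : (Fin m → ℂ) → ℝ) (f : (Fin m → ℂ) → ℂ) : 0 ≤ nrm Set.univ ψ f :=
  integral_nonneg fun z => by positivity

lemma tend_lp {ψ : (Fin m → ℂ) → ℝ} (hψ : Continuous ψ) {f : ℕ → (Fin m → ℂ) → ℂ}
    {g : (Fin m → ℂ) → ℂ} (hf : ∀ i, MemLp (f i) 2 (mw ψ)) (hg : MemLp g 2 (mw ψ))
    (h : Tendsto (fun i => nrm Set.univ ψ (fun z => f i z - g z)) atTop (𝓝 0)) :
    Tendsto (fun i => (hf i).toLp (f i)) atTop (𝓝 (hg.toLp g)) := by
  rw [tendsto_iff_norm_sub_tendsto_zero]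
  have h1 : Tendsto (fun i => √(nrm Set.univ ψ (fun z => f i z - g z))) atTop (𝓝 (√0)) :=
    (Real.continuous_sqrt.tendsto 0).comp h
  rw [Real.sqrt_zero] at h1
  refine h1.congr fun i => ?_
  rw [nrm_sub hψ (hf i) hg, Real.sqrt_sq (norm_nonneg _)]

lemma tend_nrm {ψ : (Fin m → ℂ) → ℝ} (hψ : Continuous ψ) {f : ℕ → (Fin m → ℂ) → ℂ}
    {g : (Fin m → ℂ) → ℂ} (hf : ∀ i, MemLp (f i) 2 (mw ψ)) (hg : MemLp g 2 (mw ψ))
    (h : Tendsto (fun i => (hf i).toLp (f i)) atTop (𝓝 (hg.toLp g))) :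
    Tendsto (fun i => nrm Set.univ ψ (f i)) atTop (𝓝 (nrm Set.univ ψ g)) := by
  have h1 := (h.norm).pow 2
  rw [nrm_lp hψ hg]
  refine h1.congr fun i => ?_
  rw [nrm_lp hψ (hf i)]

/-- the pairing is continuous -/
lemma tend_pair {ψ : (Fin m → ℂ) → ℝ} (hψ : Continuous ψ) {f : ℕ → (Fin m → ℂ) → ℂ}
    {g : (Fin m → ℂ) → ℂ} (hf : ∀ i, MemLp (f i) 2 (mw ψ)) (hg : MemLp g 2 (mw ψ))
    (h : Tendsto (fun i => (hf i).toLp (f i)) atTop (𝓝 (hg.toLp g)))
    {φ : (Fin m → ℂ) → ℂ} (hφ : Continuous φ) (hφ2 : HasCompactSupport φ) :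
    Tendsto (fun i => ∫ z, f i z * φ z) atTop (𝓝 (∫ z, g z * φ z)) := by
  -- the test function with the weight
  have hk : MemLp (fun z => star (φ z) * (Real.exp (ψ z) : ℂ)) 2 (mw ψ) := by
    rw [← l2_iff hψ]
    refine ⟨?_, ?_⟩
    · exact (Continuous.mul (continuous_star.comp hφ)
        (Complex.continuous_ofReal.comp (Real.continuous_exp.comp hψ))).aestronglyMeasurable
    · rw [integrableOn_univ]
      apply Continuous.integrable_of_hasCompactSupport
      · exact ((Continuous.mul (continuous_star.comp hφ)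
          (Complex.continuous_ofReal.comp (Real.continuous_exp.comp hψ))).norm.pow 2).mul
          (Real.continuous_exp.comp hψ.neg)
      · refine HasCompactSupport.intro hφ2 fun z hz => ?_
        have : φ z = 0 := image_eq_zero_of_notMem_tsupport hz
        simp [this]
  have key : ∀ u : (Fin m → ℂ) → ℂ, ∀ hu : MemLp u 2 (mw ψ),
      ∫ z, u z * φ z = inner ℂ (hk.toLp _) (hu.toLp u) := by
    intro u hu
    rw [L2.inner_def]
    have e1 : ∫ z, inner ℂ ((hk.toLp _ : Lp ℂ 2 (mw ψ)) z) ((hu.toLp u : Lp ℂ 2 (mw ψ)) z) ∂(mw ψ) =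
        ∫ z, u z * φ z * (Real.exp (ψ z) : ℂ) ∂(mw ψ) := by
      apply integral_congr_ae
      filter_upwards [hk.coeFn_toLp, hu.coeFn_toLp] with z h1 h2
      rw [h1, h2, RCLike.inner_apply]
      simp only [map_mul, Complex.conj_ofReal]
      have : (starRingEnd ℂ) (star (φ z)) = φ z := by simp
      rw [this]; ring
    rw [e1, mw_integral hψ]
    congr 1
    funext z
    rw [Complex.real_smul]
    have : (Real.exp (-ψ z) : ℂ) * (Real.exp (ψ z) : ℂ) = 1 := by
      rw [← Complex.ofReal_mul, ← Real.exp_add]; simp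
    calc u z * φ z = (u z * φ z) * ((Real.exp (-ψ z) : ℂ) * (Real.exp (ψ z) : ℂ)) := by
          rw [this, mul_one]
      _ = _ := by ring
  rw [key g hg]
  have h2 : Tendsto (fun i => inner ℂ (hk.toLp _) ((hf i).toLp (f i))) atTop
      (𝓝 (inner ℂ (hk.toLp _) (hg.toLp g))) :=
    tendsto_const_nhds.inner h
  refine h2.congr fun i => ?_
  rw [key (f i) (hf i)]

/-! ### test functions -/

lemma tst_l2 {ψ : (Fin m → ℂ) → ℝ} (hψ : Continuous ψ) {φ : (Fin m → ℂ) → ℂ} (hφ : Continuous φ)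
    (hφ2 : HasCompactSupport φ) : MemLp φ 2 (mw ψ) := by
  rw [← l2_iff hψ]
  refine ⟨hφ.aestronglyMeasurable, ?_⟩
  rw [integrableOn_univ]
  apply Continuous.integrable_of_hasCompactSupport
  · exact (hφ.norm.pow 2).mul (Real.continuous_exp.comp hψ.neg)
  · refine HasCompactSupport.intro hφ2 fun z hz => ?_
    have : φ z = 0 := image_eq_zero_of_notMem_tsupport hz
    simp [this]

lemma db_zero {f : (Fin m → ℂ) → ℂ} {z : Fin m → ℂ} (hz : z ∉ tsupport f) (j : Fin m) :
    db j f z = 0 := by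
  simp [db, fderiv_of_notMem_tsupport ℝ hz]

lemma dz_zero {f : (Fin m → ℂ) → ℂ} {z : Fin m → ℂ} (hz : z ∉ tsupport f) (j : Fin m) :
    dz j f z = 0 := by
  simp [dz, fderiv_of_notMem_tsupport ℝ hz]

lemma db_smooth (h : StCAL) {f : (Fin m → ℂ) → ℂ} (hf : ContDiff ℝ ∞ f) (j : Fin m) :
    ContDiff ℝ ∞ (db j f) := by
  have := ((h m j j f f 0).2.2.2.2 Set.univ isOpen_univ hf.contDiffOn).2
  exact contDiffOn_univ.1 this

lemma dz_smooth (h : StCAL) {f : (Fin m → ℂ) → ℂ} (hf : ContDiff ℝ ∞ f) (j : Fin m) :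
    ContDiff ℝ ∞ (dz j f) := by
  have := ((h m j j f f 0).2.2.2.2 Set.univ isOpen_univ hf.contDiffOn).1
  exact contDiffOn_univ.1 this

lemma db_tst (h : StCAL) {f : (Fin m → ℂ) → ℂ} (hf : Tst Set.univ f) (j : Fin m) :
    Tst Set.univ (db j f) :=
  ⟨db_smooth h hf.1 j, HasCompactSupport.intro hf.2.1 fun _ hz => db_zero hz j,
    Set.subset_univ _⟩

lemma db_sub {f g : (Fin m → ℂ) → ℂ} (hf : ContDiff ℝ ∞ f) (hg : ContDiff ℝ ∞ g) (j : Fin m)
    (z : Fin m → ℂ) : db j (fun z => f z - g z) z = db j f z - db j g z := by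
  have h1 : DifferentiableAt ℝ f z := (hf.differentiable (by simp)) z
  have h2 : DifferentiableAt ℝ g z := (hg.differentiable (by simp)) z
  simp only [db]
  rw [fderiv_fun_sub h1 h2]
  simp only [_root_.sub_apply]
  ring

lemma dz_sub {f g : (Fin m → ℂ) → ℂ} (hf : ContDiff ℝ ∞ f) (hg : ContDiff ℝ ∞ g) (j : Fin m)
    (z : Fin m → ℂ) : dz j (fun z => f z - g z) z = dz j f z - dz j g z := by
  have h1 : DifferentiableAt ℝ f z := (hf.differentiable (by simp)) z
  have h2 : DifferentiableAt ℝ g z := (hg.differentiable (by simp)) z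
  simp only [dz]
  rw [fderiv_fun_sub h1 h2]
  simp only [_root_.sub_apply]
  ring

lemma tst_sub {f g : (Fin m → ℂ) → ℂ} (hf : Tst Set.univ f) (hg : Tst Set.univ g) :
    Tst Set.univ (fun z => f z - g z) := by
  refine ⟨hf.1.sub hg.1, ?_, Set.subset_univ _⟩
  refine HasCompactSupport.intro (hf.2.1.isCompact.union hg.2.1.isCompact) fun z hz => ?_
  rw [Set.mem_union, not_or] at hz
  rw [image_eq_zero_of_notMem_tsupport hz.1, image_eq_zero_of_notMem_tsupport hz.2, sub_zero]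

lemma tad_sub {ψ : (Fin m → ℂ) → ℝ} {η θ : Fin m → (Fin m → ℂ) → ℂ}
    (hη : ∀ j, Tst Set.univ (η j)) (hθ : ∀ j, Tst Set.univ (θ j)) (z : Fin m → ℂ) :
    Tad ψ (fun j z => η j z - θ j z) z = Tad ψ η z - Tad ψ θ z := by
  unfold Tad
  rw [← neg_sub_neg, neg_neg, neg_neg, ← Finset.sum_sub_distrib, ← Finset.sum_neg_distrib]
  refine Finset.sum_congr rfl fun j _ => ?_
  rw [dz_sub (hη j).1 (hθ j).1]
  ring

lemma cf_smooth {ψ : (Fin m → ℂ) → ℝ} (hψ : ContDiff ℝ ∞ ψ) : ContDiff ℝ ∞ (cf ψ) :=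
  Complex.ofRealCLM.contDiff.comp hψ

lemma tad_cont (h : StCAL) {ψ : (Fin m → ℂ) → ℝ} (hψ : ContDiff ℝ ∞ ψ)
    {η : Fin m → (Fin m → ℂ) → ℂ} (hη : ∀ j, Tst Set.univ (η j)) :
    Continuous (Tad ψ η) := by
  unfold Tad
  refine (continuous_finsetSum _ fun j _ => ?_).neg
  exact (dz_smooth h (hη j).1 j).continuous.sub
    ((dz_smooth h (cf_smooth hψ) j).continuous.mul (hη j).1.continuous)

lemma tad_supp {ψ : (Fin m → ℂ) → ℝ} {η : Fin m → (Fin m → ℂ) → ℂ}
    (hη : ∀ j, Tst Set.univ (η j)) : HasCompactSupport (Tad ψ η) := by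
  refine HasCompactSupport.intro (isCompact_iUnion fun j => (hη j).2.1.isCompact) fun z hz => ?_
  simp only [Set.mem_iUnion, not_exists] at hz
  unfold Tad
  rw [neg_eq_zero]
  refine Finset.sum_eq_zero fun j _ => ?_
  rw [dz_zero (hz j), image_eq_zero_of_notMem_tsupport (hz j)]
  ring

/-- the integrand of the Levi form -/
lemma hes_cont (h : StCAL) {ψ : (Fin m → ℂ) → ℝ} (hψ : ContDiff ℝ ∞ ψ) (j k : Fin m) :
    Continuous fun z => hes ψ z j k :=
  (dz_smooth h (db_smooth h (cf_smooth hψ) k) j).continuous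

lemma levi_cont (h : StCAL) {ψ : (Fin m → ℂ) → ℝ} (hψ : ContDiff ℝ ∞ ψ)
    {η : Fin m → (Fin m → ℂ) → ℂ} (hη : ∀ j, Tst Set.univ (η j)) :
    Continuous fun z => hf (hes ψ z) (fun j => η j z) * Real.exp (-ψ z) := by
  refine Continuous.mul ?_ (Real.continuous_exp.comp hψ.continuous.neg)
  unfold hf
  refine Complex.continuous_re.comp ?_
  refine continuous_finsetSum _ fun j _ => continuous_finsetSum _ fun k _ => ?_
  exact ((hes_cont h hψ j k).mul (hη j).1.continuous).mul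
    (continuous_star.comp (hη k).1.continuous)

lemma levi_int (h : StCAL) {ψ : (Fin m → ℂ) → ℝ} (hψ : ContDiff ℝ ∞ ψ)
    {η : Fin m → (Fin m → ℂ) → ℂ} (hη : ∀ j, Tst Set.univ (η j)) :
    Integrable fun z => hf (hes ψ z) (fun j => η j z) * Real.exp (-ψ z) := by
  apply Continuous.integrable_of_hasCompactSupport (levi_cont h hψ hη)
  refine HasCompactSupport.intro (isCompact_iUnion fun j => (hη j).2.1.isCompact) fun z hz => ?_
  simp only [Set.mem_iUnion, not_exists] at hz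
  have h0 : ∀ j, η j z = 0 := fun j => image_eq_zero_of_notMem_tsupport (hz j)
  simp [hf, h0]

/-- Fatou: the Levi form of the limit -/
lemma fatou (h : StCAL) {ψ : (Fin m → ℂ) → ℝ} (hψ : ContDiff ℝ ∞ ψ)
    (hP : ∀ z, Psd (hes ψ z)) {η : ℕ → Fin m → (Fin m → ℂ) → ℂ}
    (hη : ∀ i j, Tst Set.univ (η i j)) {v : Fin m → (Fin m → ℂ) → ℂ}
    (hv : ∀ j, MemLp (v j) 2 (mw ψ))
    (hlim : ∀ j, Tendsto (fun i => nrm Set.univ ψ (fun z => η i j z - v j z)) atTop (𝓝 0))
    {L : ℝ} (hL : Tendsto (fun i => ∫ z, hf (hes ψ z) (fun j => η i j z) * Real.exp (-ψ z)) atTop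
      (𝓝 L)) :
    Integrable (fun z => hf (hes ψ z) (fun j => v j z) * Real.exp (-ψ z)) ∧
      ∫ z, hf (hes ψ z) (fun j => v j z) * Real.exp (-ψ z) ≤ L := by
  have hc : Continuous ψ := hψ.continuous
  have hηm : ∀ i j, MemLp (η i j) 2 (mw ψ) := fun i j =>
    tst_l2 hc (hη i j).1.continuous (hη i j).2.1
  -- the sum of the squares tends to zero in `L¹`
  have hF : ∀ i, Integrable (fun z => ∑ j, ‖η i j z - v j z‖ ^ 2) (mw ψ) := by
    intro i
    refine integrable_finsetSum _ fun j _ => ?_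
    exact (memLp_two_iff_integrable_sq_norm ((hηm i j).sub (hv j)).1).1 ((hηm i j).sub (hv j))
  have hFt : Tendsto (fun i => ∫ z, ∑ j, ‖η i j z - v j z‖ ^ 2 ∂(mw ψ)) atTop (𝓝 0) := by
    have h1 : ∀ i, ∫ z, ∑ j, ‖η i j z - v j z‖ ^ 2 ∂(mw ψ) =
        ∑ j, nrm Set.univ ψ (fun z => η i j z - v j z) := by
      intro i
      rw [integral_finsetSum]
      · refine Finset.sum_congr rfl fun j _ => ?_
        rw [nrm_int hc]
      · intro j _
        exact (memLp_two_iff_integrable_sq_norm ((hηm i j).sub (hv j)).1).1 ((hηm i j).sub (hv j))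
    simp only [h1]
    have := tendsto_finsetSum (Finset.univ : Finset (Fin m)) fun j _ => hlim j
    simpa using this
  have hm : TendstoInMeasure (mw ψ) (fun i z => ∑ j, ‖η i j z - v j z‖ ^ 2) atTop
      (fun _ => (0 : ℝ)) := by
    refine tendstoInMeasure_of_tendsto_eLpNorm (p := 1) (by norm_num)
      (fun i => (hF i).aestronglyMeasurable) aestronglyMeasurable_const ?_
    have h2 : ∀ i, eLpNorm ((fun z => ∑ j, ‖η i j z - v j z‖ ^ 2) - fun _ => (0 : ℝ)) 1 (mw ψ) =
        ENNReal.ofReal (∫ z, ∑ j, ‖η i j z - v j z‖ ^ 2 ∂(mw ψ)) := by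
      intro i
      rw [eLpNorm_one_eq_lintegral_enorm, ofReal_integral_eq_lintegral_ofReal (hF i)]
      · refine lintegral_congr fun z => ?_
        rw [Pi.sub_apply, sub_zero, Real.enorm_eq_ofReal (by positivity)]
      · filter_upwards with z
        simp only [Pi.zero_apply]
        positivity
    simp only [h2]
    have := ENNReal.tendsto_ofReal hFt
    simpa using this
  obtain ⟨ns, hns, hae⟩ := hm.exists_seq_tendsto_ae
  have hae2 : ∀ᵐ z ∂(volume : Measure (Fin m → ℂ)), ∀ j,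
      Tendsto (fun i => η (ns i) j z) atTop (𝓝 (v j z)) := by
    refine (mw_ac' hc).ae_le ?_
    filter_upwards [hae] with z hz j
    rw [tendsto_iff_norm_sub_tendsto_zero]
    have h1 : Tendsto (fun i => √(∑ j, ‖η (ns i) j z - v j z‖ ^ 2)) atTop (𝓝 (√0)) :=
      (Real.continuous_sqrt.tendsto 0).comp hz
    rw [Real.sqrt_zero] at h1
    refine squeeze_zero (fun i => norm_nonneg _) (fun i => ?_) h1
    apply Real.le_sqrt_of_sq_le
    exact Finset.single_le_sum (f := fun j => ‖η (ns i) j z - v j z‖ ^ 2)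
      (fun j _ => by positivity) (Finset.mem_univ j)
  have hnn : ∀ (w : Fin m → (Fin m → ℂ) → ℂ) z,
      0 ≤ hf (hes ψ z) (fun j => w j z) * Real.exp (-ψ z) := fun w z =>
    mul_nonneg ((hP z).2 _) (Real.exp_pos _).le
  have hlimint : ∀ᵐ z ∂(volume : Measure (Fin m → ℂ)),
      Tendsto (fun i => ENNReal.ofReal (hf (hes ψ z) (fun j => η (ns i) j z) * Real.exp (-ψ z)))
        atTop (𝓝 (ENNReal.ofReal (hf (hes ψ z) (fun j => v j z) * Real.exp (-ψ z)))) := by
    filter_upwards [hae2] with z hz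
    refine ENNReal.tendsto_ofReal (Tendsto.mul_const _ ?_)
    unfold hf
    refine (Complex.continuous_re.tendsto _).comp ?_
    refine tendsto_finsetSum _ fun j _ => tendsto_finsetSum _ fun k _ => ?_
    exact ((hz j).const_mul _).mul ((continuous_star.tendsto _).comp (hz k))
  have hLn : 0 ≤ L := by
    refine ge_of_tendsto' hL fun i => integral_nonneg fun z => hnn (η i) z
  have hfat : ∫⁻ z, ENNReal.ofReal (hf (hes ψ z) (fun j => v j z) * Real.exp (-ψ z)) ≤
      ENNReal.ofReal L := by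
    have h3 : ∫⁻ z, ENNReal.ofReal (hf (hes ψ z) (fun j => v j z) * Real.exp (-ψ z)) =
        ∫⁻ z, liminf (fun i =>
          ENNReal.ofReal (hf (hes ψ z) (fun j => η (ns i) j z) * Real.exp (-ψ z))) atTop := by
      apply lintegral_congr_ae
      filter_upwards [hlimint] with z hz
      exact hz.liminf_eq.symm
    rw [h3]
    refine (lintegral_liminf_le' fun i => ?_).trans ?_
    · exact (ENNReal.continuous_ofReal.comp (levi_cont h hψ (hη (ns i)))).aemeasurable
    · have h4 : ∀ i, ∫⁻ z, ENNReal.ofReal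
          (hf (hes ψ z) (fun j => η (ns i) j z) * Real.exp (-ψ z)) =
          ENNReal.ofReal (∫ z, hf (hes ψ z) (fun j => η (ns i) j z) * Real.exp (-ψ z)) := by
        intro i
        rw [ofReal_integral_eq_lintegral_ofReal (levi_int h hψ (hη (ns i)))]
        filter_upwards with z using hnn (η (ns i)) z
      simp only [h4]
      have h5 := ENNReal.tendsto_ofReal (hL.comp hns.tendsto_atTop)
      exact h5.liminf_eq.le
  have hmeas : AEStronglyMeasurable
      (fun z => hf (hes ψ z) (fun j => v j z) * Real.exp (-ψ z)) volume := by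
    refine AEStronglyMeasurable.mul ?_
      (Real.continuous_exp.comp hc.neg).aestronglyMeasurable
    unfold hf
    refine Complex.continuous_re.comp_aestronglyMeasurable ?_
    have hvm : ∀ j, AEStronglyMeasurable (v j) volume := fun j => (hv j).1.mono_ac (mw_ac' hc)
    refine Finset.aestronglyMeasurable_fun_sum _ fun j _ =>
      Finset.aestronglyMeasurable_fun_sum _ fun k _ => ?_
    exact ((hes_cont h hψ j k).aestronglyMeasurable.mul (hvm j)).mul
      (continuous_star.comp_aestronglyMeasurable (hvm k))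
  have hint : Integrable (fun z => hf (hes ψ z) (fun j => v j z) * Real.exp (-ψ z)) := by
    rw [← lintegral_ofReal_ne_top_iff_integrable hmeas]
    · exact (lt_of_le_of_lt hfat ENNReal.ofReal_lt_top).ne
    · filter_upwards with z using hnn v z
  refine ⟨hint, ?_⟩
  rw [← ofReal_integral_eq_lintegral_ofReal hint] at hfat
  · exact (ENNReal.ofReal_le_ofReal_iff hLn).1 hfat
  · filter_upwards with z using hnn v z

/-- the basic estimate for a difference of two approximating forms -/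
lemma diff_le (h1 : StBKN) (h3 : StCAL) {ψ : (Fin m → ℂ) → ℝ} (hψ : ContDiff ℝ ∞ ψ)
    (hP : ∀ z, Psd (hes ψ z)) {η θ : Fin m → (Fin m → ℂ) → ℂ}
    (hη : ∀ j, Tst Set.univ (η j)) (hθ : ∀ j, Tst Set.univ (θ j)) {a : (Fin m → ℂ) → ℂ}
    (ha : MemLp a 2 (mw ψ)) (j k : Fin m) :
    nrm Set.univ ψ (fun z => db k (η j) z - db k (θ j) z) ≤
      (2 * nrm Set.univ ψ (fun z => Tad ψ η z - a z) +
        ∑ j, ∑ k, nrm Set.univ ψ (fun z => db j (η k) z - db k (η j) z)) +
      (2 * nrm Set.univ ψ (fun z => Tad ψ θ z - a z) +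
        ∑ j, ∑ k, nrm Set.univ ψ (fun z => db j (θ k) z - db k (θ j) z)) := by
  have hc : Continuous ψ := hψ.continuous
  have par : ∀ {f g : (Fin m → ℂ) → ℂ}, MemLp f 2 (mw ψ) → MemLp g 2 (mw ψ) →
      nrm Set.univ ψ (fun z => f z - g z) ≤ 2 * nrm Set.univ ψ f + 2 * nrm Set.univ ψ g := by
    intro f g hf hg
    rw [nrm_sub hc hf hg, nrm_lp hc hf, nrm_lp hc hg]
    have h4 := norm_sub_le (hf.toLp f) (hg.toLp g)
    have h5 := norm_nonneg (hf.toLp f - hg.toLp g)
    nlinarith [sq_nonneg (‖hf.toLp f‖ - ‖hg.toLp g‖), mul_self_le_mul_self h5 h4]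
  have hTη : MemLp (Tad ψ η) 2 (mw ψ) := tst_l2 hc (tad_cont h3 hψ hη) (tad_supp hη)
  have hTθ : MemLp (Tad ψ θ) 2 (mw ψ) := tst_l2 hc (tad_cont h3 hψ hθ) (tad_supp hθ)
  have hcm : ∀ (w : Fin m → (Fin m → ℂ) → ℂ), (∀ j, Tst Set.univ (w j)) → ∀ j k,
      MemLp (fun z => db j (w k) z - db k (w j) z) 2 (mw ψ) := by
    intro w hw j k
    have := tst_sub (db_tst h3 (hw k) j) (db_tst h3 (hw j) k)
    exact tst_l2 hc this.1.continuous this.2.1
  have hB := h1 m ψ hψ (fun j z => η j z - θ j z) fun j => tst_sub (hη j) (hθ j)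
  have e1 : nrm Set.univ ψ (Tad ψ (fun j z => η j z - θ j z)) ≤
      2 * nrm Set.univ ψ (fun z => Tad ψ η z - a z) +
      2 * nrm Set.univ ψ (fun z => Tad ψ θ z - a z) := by
    have : Tad ψ (fun j z => η j z - θ j z) =
        fun z => (fun z => Tad ψ η z - a z) z - (fun z => Tad ψ θ z - a z) z := by
      funext z
      rw [tad_sub hη hθ]
      ring
    rw [this]
    exact par (hTη.sub ha) (hTθ.sub ha)
  have e2 : (1 / 2) * ∑ j, ∑ k, nrm Set.univ ψ
        (fun z => db j (fun z => η k z - θ k z) z - db k (fun z => η j z - θ j z) z) ≤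
      ∑ j, ∑ k, nrm Set.univ ψ (fun z => db j (η k) z - db k (η j) z) +
      ∑ j, ∑ k, nrm Set.univ ψ (fun z => db j (θ k) z - db k (θ j) z) := by
    rw [Finset.mul_sum, ← Finset.sum_add_distrib]
    refine Finset.sum_le_sum fun j _ => ?_
    rw [Finset.mul_sum, ← Finset.sum_add_distrib]
    refine Finset.sum_le_sum fun k _ => ?_
    have : (fun z => db j (fun z => η k z - θ k z) z - db k (fun z => η j z - θ j z) z) =
        fun z => (fun z => db j (η k) z - db k (η j) z) z -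
          (fun z => db j (θ k) z - db k (θ j) z) z := by
      funext z
      rw [db_sub (hη k).1 (hθ k).1, db_sub (hη j).1 (hθ j).1]
      ring
    rw [this]
    have := par (hcm η hη j k) (hcm θ hθ j k)
    linarith
  have e3 : nrm Set.univ ψ (fun z => db k (η j) z - db k (θ j) z) ≤
      ∑ j, ∑ k, nrm Set.univ ψ (db k (fun z => η j z - θ j z)) := by
    have : (fun z => db k (η j) z - db k (θ j) z) = db k (fun z => η j z - θ j z) := by
      funext z
      rw [db_sub (hη j).1 (hθ j).1]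
    rw [this]
    calc nrm Set.univ ψ (db k (fun z => η j z - θ j z)) ≤
        ∑ k, nrm Set.univ ψ (db k (fun z => η j z - θ j z)) :=
          Finset.single_le_sum (f := fun k => nrm Set.univ ψ (db k (fun z => η j z - θ j z)))
            (fun k _ => nrm_nonneg _ _) (Finset.mem_univ k)
      _ ≤ _ := Finset.single_le_sum
            (f := fun j => ∑ k, nrm Set.univ ψ (db k (fun z => η j z - θ j z)))
            (fun j _ => Finset.sum_nonneg fun k _ => nrm_nonneg _ _) (Finset.mem_univ j)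
  have e4 : 0 ≤ ∫ z, hf (hes ψ z) (fun j => η j z - θ j z) * Real.exp (-ψ z) :=
    integral_nonneg fun z => mul_nonneg ((hP z).2 _) (Real.exp_pos _).le
  linarith

theorem hBSI (h1 : StBKN) (h2 : StDEN) (h3 : StCAL) (h4 : StIBP) : StBSI := by
  intro m ψ hψ hP v a hv ha hWT hCF
  have hc : Continuous ψ := hψ.continuous
  obtain ⟨η, hη, hηv, hTa, hcu⟩ := h2 m ψ hψ v a hv ha hWT hCF
  have hvm : ∀ j, MemLp (v j) 2 (mw ψ) := fun j => (l2_iff hc _).1 (hv j)
  have ham : MemLp a 2 (mw ψ) := (l2_iff hc _).1 ha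
  have hηm : ∀ i j, MemLp (η i j) 2 (mw ψ) := fun i j =>
    tst_l2 hc (hη i j).1.continuous (hη i j).2.1
  have hdm : ∀ i j k, MemLp (db k (η i j)) 2 (mw ψ) := fun i j k =>
    tst_l2 hc (db_tst h3 (hη i j) k).1.continuous (db_tst h3 (hη i j) k).2.1
  have hTm : ∀ i, MemLp (Tad ψ (η i)) 2 (mw ψ) := fun i =>
    tst_l2 hc (tad_cont h3 hψ (hη i)) (tad_supp (hη i))
  -- the derivatives form Cauchy sequences
  obtain ⟨B, hBdef⟩ : ∃ B : ℕ → ℝ, ∀ i, B i =
      2 * nrm Set.univ ψ (fun z => Tad ψ (η i) z - a z) +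
        ∑ j, ∑ k, nrm Set.univ ψ (fun z => db j (η i k) z - db k (η i j) z) := ⟨_, fun _ => rfl⟩
  have hBt : Tendsto B atTop (𝓝 0) := by
    have e1 := (hTa.const_mul 2).add (tendsto_finsetSum (Finset.univ : Finset (Fin m)) fun j _ =>
      tendsto_finsetSum (Finset.univ : Finset (Fin m)) fun k _ => hcu j k)
    have e2 : B = fun i => 2 * nrm Set.univ ψ (fun z => Tad ψ (η i) z - a z) +
        ∑ j, ∑ k, nrm Set.univ ψ (fun z => db j (η i k) z - db k (η i j) z) := funext hBdef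
    rw [e2]
    simpa using e1
  have hcau : ∀ j k, CauchySeq fun i => (hdm i j k).toLp (db k (η i j)) := by
    intro j k
    rw [Metric.cauchySeq_iff']
    intro ε hε
    have hev : ∀ᶠ i in atTop, B i < ε ^ 2 / 2 := by
      have : (0 : ℝ) < ε ^ 2 / 2 := by positivity
      exact hBt.eventually (gt_mem_nhds this)
    obtain ⟨N, hN⟩ := eventually_atTop.1 hev
    refine ⟨N, fun n hn => ?_⟩
    have e1 := diff_le h1 h3 hψ hP (hη n) (hη N) ham j k
    rw [← hBdef, ← hBdef, nrm_sub hc (hdm n j k) (hdm N j k)] at e1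
    rw [dist_eq_norm]
    have e2 := hN n hn
    have e3 := hN N le_rfl
    have e4 : ‖(hdm n j k).toLp (db k (η n j)) - (hdm N j k).toLp (db k (η N j))‖ ^ 2 < ε ^ 2 := by
      linarith
    exact lt_of_pow_lt_pow_left₀ 2 hε.le e4
  choose G hG using fun j k => cauchySeq_tendsto_of_complete (hcau j k)
  have hGm : ∀ j k, MemLp (G j k) 2 (mw ψ) := fun j k => Lp.memLp _
  have hGt : ∀ j k, Tendsto (fun i => (hdm i j k).toLp (db k (η i j))) atTop
      (𝓝 ((hGm j k).toLp (G j k))) := by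
    intro j k
    rw [Lp.toLp_coeFn]
    exact hG j k
  -- convergence of the norms
  have hN1 : ∀ j k, Tendsto (fun i => nrm Set.univ ψ (db k (η i j))) atTop
      (𝓝 (nrm Set.univ ψ (G j k))) := fun j k =>
    tend_nrm hc (fun i => hdm i j k) (hGm j k) (hGt j k)
  have hN2 : Tendsto (fun i => nrm Set.univ ψ (Tad ψ (η i))) atTop (𝓝 (nrm Set.univ ψ a)) :=
    tend_nrm hc hTm ham (tend_lp hc hTm ham hTa)
  have hL : Tendsto (fun i => ∫ z, hf (hes ψ z) (fun j => η i j z) * Real.exp (-ψ z)) atTop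
      (𝓝 (nrm Set.univ ψ a - ∑ j, ∑ k, nrm Set.univ ψ (G j k))) := by
    have e1 : ∀ i, ∫ z, hf (hes ψ z) (fun j => η i j z) * Real.exp (-ψ z) =
        nrm Set.univ ψ (Tad ψ (η i)) +
          (1 / 2) * (∑ j, ∑ k, nrm Set.univ ψ (fun z => db j (η i k) z - db k (η i j) z)) -
          ∑ j, ∑ k, nrm Set.univ ψ (db k (η i j)) := by
      intro i
      have := h1 m ψ hψ (η i) (hη i)
      linarith
    simp only [e1]
    have e2 := (hN2.add ((tendsto_finsetSum (Finset.univ : Finset (Fin m)) fun j _ =>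
      tendsto_finsetSum (Finset.univ : Finset (Fin m)) fun k _ => hcu j k).const_mul (1 / 2))).sub
      (tendsto_finsetSum (Finset.univ : Finset (Fin m)) fun j _ =>
        tendsto_finsetSum (Finset.univ : Finset (Fin m)) fun k _ => hN1 j k)
    simpa using e2
  obtain ⟨hi1, hi2⟩ := fatou h3 hψ hP hη hvm hηv hL
  refine ⟨fun k j => G j k, fun k j => ⟨(l2_iff hc _).2 (hGm j k), ?_⟩, hi1, ?_⟩
  · -- the weak derivative
    intro φ hφ
    rw [Measure.restrict_univ]
    have t1 := tend_pair hc (fun i => hηm i j) (hvm j)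
      (tend_lp hc (fun i => hηm i j) (hvm j) (hηv j))
      (db_tst h3 hφ k).1.continuous (db_tst h3 hφ k).2.1
    have t2 := (tend_pair hc (fun i => hdm i j k) (hGm j k) (hGt j k)
      hφ.1.continuous hφ.2.1).neg
    refine tendsto_nhds_unique t1 (t2.congr fun i => ?_)
    have := (h4 m k (η i j) φ ((hη i j).1.of_le (by simp)) (hφ.1.of_le (by simp)) hφ.2.1).2
    rw [this, neg_neg]
  · linarith

end Pool.Agent.Helper22.KP
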