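import Pool.Agent.Helper68.KP.StS

/-!
# Project KP, module COC (cocycle inequalities of the weighted logarithmic volume)
-/

set_option autoImplicit false

namespace Pool.Agent.Helper22.KP

open Pool.Agent.Helper52.KP Pool.Agent.Helper68.KP Filter Topology Matrix

/-- the determinant of the exponential of a Hermitian matrix -/
lemma coc_det_exp (hJ : StJEN) {N : ℕ} {A : Matrix (Fin N) (Fin N) ℂ} (hA : A.IsHermitian) :
    ((NormedSpace.exp A).det).re = Real.exp A.trace.re ∧ ((NormedSpace.exp A).det).im = 0 := by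
  have him : ∀ B : Matrix (Fin N) (Fin N) ℂ, B.IsHermitian → ((NormedSpace.exp B).det).im = 0 := by
    intro B hB
    have h1 : (NormedSpace.exp B).IsHermitian := hB.exp
    have h2 : star (NormedSpace.exp B).det = (NormedSpace.exp B).det := by
      rw [← Matrix.det_conjTranspose, h1.eq]
    have h3 := congrArg Complex.im h2
    rw [Complex.star_def, Complex.conj_im] at h3
    linarith
  have hlow : ∀ B : Matrix (Fin N) (Fin N) ℂ, B.IsHermitian →
      Real.exp B.trace.re ≤ ((NormedSpace.exp B).det).re := by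
    intro B hB
    have := hJ N N B 1 hB (by simp)
    simpa using this
  refine ⟨?_, him A hA⟩
  have hnA : (-A).IsHermitian := hA.neg
  have h1 := hlow A hA
  have h2 := hlow (-A) hnA
  have h3 := him A hA
  have h4 := him (-A) hnA
  have h5 : (NormedSpace.exp A).det * (NormedSpace.exp (-A)).det = 1 := by
    rw [← Matrix.det_mul, Matrix.exp_neg, Matrix.mul_nonsing_inv _
      ((Matrix.isUnit_iff_isUnit_det _).1 (Matrix.isUnit_exp A)), Matrix.det_one]
  have h6 : ((NormedSpace.exp A).det).re * ((NormedSpace.exp (-A)).det).re = 1 := by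
    have := congrArg Complex.re h5
    rw [Complex.mul_re, h3, h4, Complex.one_re] at this
    linarith
  rw [Matrix.trace_neg, Complex.neg_re, Real.exp_neg] at h2
  refine le_antisymm ?_ h1
  have hpos : 0 < Real.exp A.trace.re := Real.exp_pos _
  have hpos2 : 0 < ((NormedSpace.exp A).det).re := lt_of_lt_of_le hpos h1
  have h7 : ((NormedSpace.exp A).det).re * (Real.exp A.trace.re)⁻¹ ≤ 1 := by
    rw [← h6]
    exact mul_le_mul_of_nonneg_left h2 hpos2.le
  rw [← div_eq_mul_inv, div_le_one hpos] at h7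
  exact h7

lemma coc_term (hJ : StJEN) (hU : StUPR) (hO : StORT) (hP : StPJZ) {N p : ℕ}
    {σ A : Matrix (Fin N) (Fin N) ℂ} {V : Matrix (Fin N) (Fin p) ℂ} (hσ : IsUnit σ)
    (hA : A.IsHermitian) (hV : Vᴴ * V = 1) :
    Real.log ((Vᴴ * (σᴴ * σ) * V).det.re) + (A * pj (σ * V)).trace.re ≤
      Real.log ((Vᴴ * (σᴴ * NormedSpace.exp A * σ) * V).det.re) ∧
    (hs A ≤ 1 → Real.log ((Vᴴ * (σᴴ * NormedSpace.exp A * σ) * V).det.re) ≤
      Real.log ((Vᴴ * (σᴴ * σ) * V).det.re) + (A * pj (σ * V)).trace.re + hs A) := by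
  obtain ⟨V', T, hV', hT, hX⟩ := hO N p σ V hσ hV
  obtain ⟨hpj, hd, hdet⟩ := hP N p (σ * V) V' T hV' hT hX
  have e1 : Vᴴ * (σᴴ * NormedSpace.exp A * σ) * V =
      (σ * V)ᴴ * NormedSpace.exp A * (σ * V) := by
    rw [Matrix.conjTranspose_mul]
    simp only [Matrix.mul_assoc]
  have e2 : Vᴴ * (σᴴ * σ) * V = (σ * V)ᴴ * (1 : Matrix (Fin N) (Fin N) ℂ) * (σ * V) := by
    rw [Matrix.conjTranspose_mul, Matrix.mul_one]
    simp only [Matrix.mul_assoc]
  have e3 : (V'ᴴ * (1 : Matrix (Fin N) (Fin N) ℂ) * V').det = 1 := by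
    rw [Matrix.mul_one, hV', Matrix.det_one]
  have e4 : (A * pj (σ * V)).trace = (V'ᴴ * A * V').trace := by
    rw [hpj, ← Matrix.mul_assoc, Matrix.trace_mul_comm, ← Matrix.mul_assoc]
  have hr : 0 < ‖T.det‖ ^ 2 := by positivity
  have h1 := hJ N p A V' hA hV'
  have hp : 0 < ((V'ᴴ * NormedSpace.exp A * V').det).re := lt_of_lt_of_le (Real.exp_pos _) h1
  rw [e1, e2, hdet, hdet, e3, e4, mul_one, Complex.re_ofReal_mul, Complex.ofReal_re,
    Real.log_mul hr.ne' hp.ne']
  constructor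
  · have h2 := (Real.le_log_iff_exp_le hp).2 h1
    linarith
  · intro hs1
    have h3 := hU N p A V' hA hV' hs1
    linarith

theorem hCOC (hJ : StJEN) (hU : StUPR) (hO : StORT) (hP : StPJZ) : StCOC := by
  intro N w σ A hw hσ hA
  have hdσ : 0 < ‖σ.det‖ := by
    rw [norm_pos_iff]
    exact ((Matrix.isUnit_iff_isUnit_det _).1 hσ).ne_zero
  have hr : 0 < ‖σ.det‖ ^ 2 := by positivity
  obtain ⟨hx1, hx2⟩ := coc_det_exp hJ hA
  -- the determinants of the last term
  have d1 : ((σᴴ * σ).det).re = ‖σ.det‖ ^ 2 := by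
    rw [Matrix.det_mul, Matrix.det_conjTranspose, mul_comm, Complex.star_def, Complex.mul_conj,
      Complex.ofReal_re, Complex.normSq_eq_norm_sq]
  have d2 : ((σᴴ * NormedSpace.exp A * σ).det).re = ‖σ.det‖ ^ 2 * Real.exp A.trace.re := by
    have : (σᴴ * NormedSpace.exp A * σ).det =
        ((‖σ.det‖ ^ 2 : ℝ) : ℂ) * (NormedSpace.exp A).det := by
      rw [Matrix.det_mul, Matrix.det_mul, Matrix.det_conjTranspose, ← Complex.normSq_eq_norm_sq,
        ← Complex.mul_conj, Complex.star_def]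
      ring
    rw [this, Complex.re_ofReal_mul, hx1]
  have d3 : Real.log ((σᴴ * NormedSpace.exp A * σ).det).re =
      Real.log ((σᴴ * σ).det).re + A.trace.re := by
    rw [d1, d2, Real.log_mul hr.ne' (Real.exp_pos _).ne', Real.log_exp]
  have hL : (A * w.L σ).trace.re = ∑ i, w.c i * (A * pj (σ * w.V i)).trace.re +
      w.c0 * A.trace.re := by
    unfold WF.L
    rw [Matrix.mul_add, Matrix.trace_add, Complex.add_re, Matrix.mul_sum, Matrix.trace_sum,
      Complex.re_sum]
    congr 1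
    · refine Finset.sum_congr rfl fun i _ => ?_
      rw [Matrix.mul_smul, Matrix.trace_smul, smul_eq_mul, Complex.re_ofReal_mul]
    · rw [Matrix.mul_smul, Matrix.mul_one, Matrix.trace_smul, smul_eq_mul, Complex.re_ofReal_mul]
  refine ⟨?_, ?_, ?_⟩
  · unfold WF.f
    have : ∀ i, ((w.V i)ᴴ * w.V i).det = 1 := by
      intro i
      rw [hw.orth, Matrix.det_one]
    simp [this]
  · rw [hL]
    unfold WF.f
    rw [d3]
    have : ∑ i, w.c i * Real.log (((w.V i)ᴴ * (σᴴ * σ) * w.V i).det.re) +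
        ∑ i, w.c i * (A * pj (σ * w.V i)).trace.re ≤
        ∑ i, w.c i * Real.log (((w.V i)ᴴ * (σᴴ * NormedSpace.exp A * σ) * w.V i).det.re) := by
      rw [← Finset.sum_add_distrib]
      refine Finset.sum_le_sum fun i _ => ?_
      rw [← mul_add]
      exact mul_le_mul_of_nonneg_left (coc_term hJ hU hO hP hσ hA (hw.orth i)).1 (hw.pos i)
    linarith
  · intro hs1
    rw [hL]
    unfold WF.f
    rw [d3]
    have : ∑ i, w.c i * Real.log (((w.V i)ᴴ * (σᴴ * NormedSpace.exp A * σ) * w.V i).det.re) ≤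
        ∑ i, w.c i * Real.log (((w.V i)ᴴ * (σᴴ * σ) * w.V i).det.re) +
        ∑ i, w.c i * (A * pj (σ * w.V i)).trace.re + (∑ i, w.c i) * hs A := by
      rw [Finset.sum_mul, ← Finset.sum_add_distrib, ← Finset.sum_add_distrib]
      refine Finset.sum_le_sum fun i _ => ?_
      rw [← mul_add, ← mul_add]
      exact mul_le_mul_of_nonneg_left ((coc_term hJ hU hO hP hσ hA (hw.orth i)).2 hs1) (hw.pos i)
    linarith

end Pool.Agent.Helper22.KP
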