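import Pool.Agent.Helper52.KP.StW

/-!
# Project KP, module EUL (consequences of homogeneity)
-/

set_option autoImplicit false

namespace Pool.Agent.Helper22.KP

open MeasureTheory Filter Pool.Agent.Helper52.KP
open scoped ContDiff ComplexOrder Topology

section General

variable {m : ℕ}

lemma cf_diff {u : (Fin m → ℂ) → ℝ} {z : Fin m → ℂ} (hu : DifferentiableAt ℝ u z) :
    DifferentiableAt ℝ (cf u) z :=
  (Complex.ofRealCLM.differentiableAt).comp z hu

lemma cf_fderiv {u : (Fin m → ℂ) → ℝ} {z : Fin m → ℂ} (hu : DifferentiableAt ℝ u z)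
    (v : Fin m → ℂ) : fderiv ℝ (cf u) z v = (fderiv ℝ u z v : ℂ) := by
  have h := (Complex.ofRealCLM.hasFDerivAt (x := u z)).comp z hu.hasFDerivAt
  have h2 : HasFDerivAt (cf u) (Complex.ofRealCLM.comp (fderiv ℝ u z)) z := h
  rw [h2.fderiv]
  rfl

lemma comp_fderiv {u : (Fin m → ℂ) → ℝ} {f : ℝ → ℝ} {z : Fin m → ℂ}
    (hu : DifferentiableAt ℝ u z) (hf : DifferentiableAt ℝ f (u z)) (v : Fin m → ℂ) :
    fderiv ℝ (cf fun x => f (u x)) z v = ((deriv f (u z) : ℝ) : ℂ) * fderiv ℝ (cf u) z v := by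
  have h := hf.hasDerivAt.comp_hasFDerivAt z hu.hasFDerivAt
  have h2 : HasFDerivAt (fun x => f (u x)) (deriv f (u z) • fderiv ℝ u z) z := h
  rw [cf_fderiv h2.differentiableAt, cf_fderiv hu, h2.fderiv]
  simp

lemma comp_dz {u : (Fin m → ℂ) → ℝ} {f : ℝ → ℝ} {z : Fin m → ℂ}
    (hu : DifferentiableAt ℝ u z) (hf : DifferentiableAt ℝ f (u z)) (j : Fin m) :
    dz j (cf fun x => f (u x)) z = ((deriv f (u z) : ℝ) : ℂ) * dz j (cf u) z := by
  simp only [dz]
  rw [comp_fderiv hu hf, comp_fderiv hu hf]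
  ring

lemma comp_db {u : (Fin m → ℂ) → ℝ} {f : ℝ → ℝ} {z : Fin m → ℂ}
    (hu : DifferentiableAt ℝ u z) (hf : DifferentiableAt ℝ f (u z)) (j : Fin m) :
    db j (cf fun x => f (u x)) z = ((deriv f (u z) : ℝ) : ℂ) * db j (cf u) z := by
  simp only [db]
  rw [comp_fderiv hu hf, comp_fderiv hu hf]
  ring

lemma dz_congr {f g : (Fin m → ℂ) → ℂ} {z : Fin m → ℂ} (h : f =ᶠ[𝓝 z] g) (j : Fin m) :
    dz j f z = dz j g z := by
  simp only [dz, h.fderiv_eq]

lemma db_congr {f g : (Fin m → ℂ) → ℂ} {z : Fin m → ℂ} (h : f =ᶠ[𝓝 z] g) (j : Fin m) :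
    db j f z = db j g z := by
  simp only [db, h.fderiv_eq]

lemma dz_star_db (h : StCAL) {u : (Fin m → ℂ) → ℝ} {z : Fin m → ℂ}
    (hu : DifferentiableAt ℝ u z) (j : Fin m) : dz j (cf u) z = star (db j (cf u) z) := by
  have h1 := ((h m j j (cf u) (cf u) z).1 (cf_diff hu) (cf_diff hu)).2.2.2.2.1
  have h2 : (fun z => star (cf u z)) = cf u := by
    funext x
    simp [cf]
  rw [h2] at h1
  exact h1

/-- the vector field `w_j z_j` -/
def ee (w : Fin m → ℕ) (z : Fin m → ℂ) : Fin m → ℂ := fun j => (w j : ℂ) * z j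

lemma scl_line {w : Fin m → ℕ} (hw : ∀ j, w j = 0 ∨ w j = 1) (z : Fin m → ℂ) (c : ℂ) :
    scl w (1 + c) z = z + c • ee w z := by
  funext j
  simp only [scl, ee, Pi.add_apply, Pi.smul_apply, smul_eq_mul]
  rcases hw j with h | h <;> rw [h] <;> simp <;> ring

/-- Euler relations in real form -/
lemma euler_real {w : Fin m → ℕ} (hw : ∀ j, w j = 0 ∨ w j = 1) {v : (Fin m → ℂ) → ℝ}
    {z : Fin m → ℂ} (hv : DifferentiableAt ℝ v z) {ρ : ℂ → ℝ} {D : ℂ → ℝ}
    (hρ : ∀ c : ℂ, c ≠ 0 → v (scl w c z) = ρ c)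
    (hD : ∀ τ : ℂ, HasDerivAt (fun s : ℝ => ρ (1 + s * τ)) (D τ) 0) (τ : ℂ) :
    fderiv ℝ (cf v) z (τ • ee w z) = (D τ : ℂ) := by
  rw [cf_fderiv hv]
  congr 1
  have h1 : HasDerivAt (fun s : ℝ => z + (s : ℂ) • (τ • ee w z)) (τ • ee w z) 0 := by
    have h2 : HasDerivAt (fun s : ℝ => s • (τ • ee w z)) ((1 : ℝ) • (τ • ee w z)) 0 :=
      (hasDerivAt_id (0 : ℝ)).smul_const _
    rw [one_smul] at h2
    have h3 := h2.const_add z
    refine h3.congr_of_eventuallyEq (Eventually.of_forall fun s => ?_)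
    simp only
    congr 1
  have h4 : HasDerivAt (fun s : ℝ => v (z + (s : ℂ) • (τ • ee w z)))
      (fderiv ℝ v z (τ • ee w z)) 0 := by
    have h5 : HasFDerivAt v (fderiv ℝ v z) (z + ((0 : ℝ) : ℂ) • (τ • ee w z)) := by
      simpa using hv.hasFDerivAt
    exact h5.comp_hasDerivAt (0 : ℝ) h1
  have h6 : (fun s : ℝ => v (z + (s : ℂ) • (τ • ee w z))) =ᶠ[𝓝 0]
      fun s : ℝ => ρ (1 + s * τ) := by
    have h7 : ∀ᶠ s : ℝ in 𝓝 0, (1 : ℂ) + s * τ ≠ 0 := by
      have h8 : Continuous fun s : ℝ => (1 : ℂ) + s * τ := by fun_prop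
      have h9 : (1 : ℂ) + ((0 : ℝ) : ℂ) * τ ≠ 0 := by simp
      exact h8.continuousAt.eventually_ne h9
    filter_upwards [h7] with s hs
    rw [← hρ _ hs, scl_line hw, smul_smul]
  exact h4.unique ((hD τ).congr_of_eventuallyEq h6)

/-- Euler relations in complex form -/
lemma euler_cplx (h : StCAL) {w : Fin m → ℕ} (hw : ∀ j, w j = 0 ∨ w j = 1)
    {v : (Fin m → ℂ) → ℝ} {z : Fin m → ℂ} (hv : DifferentiableAt ℝ v z) {ρ : ℂ → ℝ} {d : ℝ}
    (hρ : ∀ c : ℂ, c ≠ 0 → v (scl w c z) = ρ c)
    (hD : ∀ τ : ℂ, HasDerivAt (fun s : ℝ => ρ (1 + s * τ)) (τ.re * d) 0) :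
    ∑ j, ee w z j * dz j (cf v) z = (d : ℂ) / 2 := by
  rcases Nat.eq_zero_or_pos m with h0 | hpos
  · subst h0
    have h1 := euler_real hw hv hρ hD 1
    have h2 : (1 : ℂ) • ee w z = 0 := Subsingleton.elim _ _
    rw [h2, map_zero] at h1
    have : (d : ℂ) = 0 := by
      rw [Complex.one_re, one_mul] at h1
      exact h1.symm
    simp [this]
  have hF := ((h m ⟨0, hpos⟩ ⟨0, hpos⟩ (cf v) (cf v) z).2.1 (cf_diff hv)).1
  have h1 := euler_real hw hv hρ hD 1
  have h2 := euler_real hw hv hρ hD Complex.I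
  rw [hF] at h1 h2
  simp only [one_smul, Complex.one_re, one_mul, Complex.I_re, zero_mul, Complex.ofReal_zero] at h1 h2
  have h3 : ∑ i, (dz i (cf v) z * (Complex.I • ee w z) i +
      db i (cf v) z * star ((Complex.I • ee w z) i)) =
      Complex.I * (∑ i, dz i (cf v) z * ee w z i) - Complex.I *
        ∑ i, db i (cf v) z * star (ee w z i) := by
    rw [Finset.mul_sum, Finset.mul_sum, ← Finset.sum_sub_distrib]
    refine Finset.sum_congr rfl fun i _ => ?_
    simp only [Pi.smul_apply, smul_eq_mul, star_mul', Complex.star_def, Complex.conj_I]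
    ring
  rw [h3, ← mul_sub] at h2
  have h4 := (mul_eq_zero.1 h2).resolve_left Complex.I_ne_zero
  rw [Finset.sum_add_distrib] at h1
  have h5 : ∑ j, ee w z j * dz j (cf v) z = ∑ i, dz i (cf v) z * ee w z i :=
    Finset.sum_congr rfl fun i _ => mul_comm _ _
  rw [h5]
  have h6 : ∑ i, db i (cf v) z * star (ee w z i) = ∑ i, dz i (cf v) z * ee w z i :=
    (sub_eq_zero.1 h4).symm
  rw [h6] at h1
  rw [← h1]
  ring

/-- the derivative of the norm -/
lemma norm_deriv (a : ℝ) (τ : ℂ) :
    HasDerivAt (fun s : ℝ => ‖(1 : ℂ) + s * τ‖ * a) (τ.re * a) 0 := by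
  refine HasDerivAt.mul_const ?_ a
  have h1 : HasDerivAt (fun s : ℝ => (1 + s * τ.re) ^ 2 + (s * τ.im) ^ 2) (2 * τ.re) 0 := by
    have e1 : HasDerivAt (fun s : ℝ => (1 + s * τ.re)) τ.re 0 := by
      simpa using ((hasDerivAt_id (0 : ℝ)).mul_const τ.re).const_add 1
    have e2 : HasDerivAt (fun s : ℝ => (s * τ.im)) τ.im 0 := by
      simpa using ((hasDerivAt_id (0 : ℝ)).mul_const τ.im)
    have e3 : HasDerivAt (fun s : ℝ => (1 + s * τ.re) ^ 2 + (s * τ.im) ^ 2) _ 0 :=
      (e1.pow 2).add (e2.pow 2)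
    exact e3.congr_deriv (by simp)
  have h2 : (fun s : ℝ => ‖(1 : ℂ) + s * τ‖) = fun s : ℝ => √((1 + s * τ.re) ^ 2 + (s * τ.im) ^ 2) := by
    funext s
    rw [Complex.norm_eq_sqrt_sq_add_sq]
    simp
  rw [h2]
  exact (h1.sqrt (by simp)).congr_deriv (by simp)

/-- the form `∑ A j k x_j star y_k` -/
noncomputable def BB (A : Matrix (Fin m) (Fin m) ℂ) (x y : Fin m → ℂ) : ℂ :=
  ∑ j, ∑ k, A j k * x j * star (y k)

lemma BB_star {A : Matrix (Fin m) (Fin m) ℂ} (hA : A.IsHermitian) (x y : Fin m → ℂ) :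
    star (BB A x y) = BB A y x := by
  unfold BB
  rw [star_sum, Finset.sum_comm]
  refine Finset.sum_congr rfl fun j _ => ?_
  rw [star_sum]
  refine Finset.sum_congr rfl fun k _ => ?_
  rw [star_mul', star_mul', star_star, hA.apply]
  ring

lemma BB_sub (A : Matrix (Fin m) (Fin m) ℂ) (x y : Fin m → ℂ) (t : ℂ) :
    BB A (x - t • y) (x - t • y) =
      BB A x x - star t * BB A x y - t * BB A y x + t * star t * BB A y y := by
  unfold BB
  simp only [Finset.mul_sum, ← Finset.sum_sub_distrib, ← Finset.sum_add_distrib]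
  refine Finset.sum_congr rfl fun j _ => Finset.sum_congr rfl fun k _ => ?_
  simp only [Pi.sub_apply, Pi.smul_apply, smul_eq_mul, star_sub, star_mul']
  ring

/-- Cauchy-Schwarz -/
lemma BB_cs {A : Matrix (Fin m) (Fin m) ℂ} (hA : A.IsHermitian) (hP : ∀ ξ, 0 ≤ hf A ξ)
    (x y : Fin m → ℂ) {b : ℝ} (hb : 0 < b) (hy : BB A y y = b) :
    ‖BB A x y‖ ^ 2 ≤ b * hf A x := by
  have hx : BB A x x = (hf A x : ℂ) := by
    apply Complex.ext
    · rw [Complex.ofReal_re]; rfl
    · have := BB_star hA x x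
      rw [Complex.ofReal_im]
      have h2 := congrArg Complex.im this
      rw [Complex.star_def, Complex.conj_im] at h2
      linarith
  have h0 := hP (x - (BB A x y / b) • y)
  have h1 : (hf A (x - (BB A x y / b) • y)) = (BB A (x - (BB A x y / b) • y)
      (x - (BB A x y / b) • y)).re := rfl
  rw [h1, BB_sub, ← BB_star hA x y, hy, hx] at h0
  have hbc : (b : ℂ) ≠ 0 := by exact_mod_cast hb.ne'
  have h2 : (hf A x : ℂ) - star (BB A x y / b) * BB A x y - BB A x y / b * star (BB A x y) +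
      BB A x y / b * star (BB A x y / b) * b = ((hf A x - ‖BB A x y‖ ^ 2 / b : ℝ) : ℂ) := by
    have h3 : BB A x y * star (BB A x y) = ((‖BB A x y‖ ^ 2 : ℝ) : ℂ) := by
      rw [Complex.star_def, Complex.mul_conj, Complex.normSq_eq_norm_sq]
    have h4 : star (BB A x y / b) = star (BB A x y) / b := by
      rw [star_div₀, Complex.star_def, Complex.conj_ofReal]
    rw [h4]
    push_cast at h3 ⊢
    rw [← h3]
    field_simp
    ring
  rw [h2, Complex.ofReal_re] at h0
  have h5 : ‖BB A x y‖ ^ 2 / b ≤ hf A x := by linarith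
  rw [div_le_iff₀ hb] at h5
  linarith

/-- the determinant of a rank one perturbation -/
lemma det_rank_one (hm : 2 ≤ m) (x : ℂ) (a e : Fin m → ℂ) :
    (x • (1 : Matrix (Fin m) (Fin m) ℂ) + Matrix.of fun j k => a j * e k).det =
      x ^ (m - 1) * (x + ∑ j, e j * a j) := by
  have key : ∀ x : ℂ, x ≠ 0 →
      (x • (1 : Matrix (Fin m) (Fin m) ℂ) + Matrix.of fun j k => a j * e k).det =
      x ^ (m - 1) * (x + ∑ j, e j * a j) := by
    intro x hx
    have h1 : x • (1 : Matrix (Fin m) (Fin m) ℂ) + (Matrix.of fun j k => a j * e k) =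
        x • (1 + Matrix.replicateCol Unit (fun j => x⁻¹ * a j) * Matrix.replicateRow Unit e) := by
      ext j k
      simp only [Matrix.add_apply, Matrix.smul_apply, Matrix.of_apply, Matrix.mul_apply,
        Matrix.replicateCol_apply, Matrix.replicateRow_apply, smul_eq_mul, Finset.univ_unique,
        Finset.sum_singleton]
      field_simp
    rw [h1, Matrix.det_smul, Matrix.det_one_add_replicateCol_mul_replicateRow]
    rw [Fintype.card_fin]
    have h2 : x ^ m = x ^ (m - 1) * x := by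
      rw [← pow_succ]; congr 1; omega
    rw [h2, mul_assoc]
    congr 1
    simp only [dotProduct]
    rw [mul_add, mul_one, Finset.mul_sum]
    congr 1
    refine Finset.sum_congr rfl fun j _ => ?_
    field_simp
  by_cases hx : x = 0
  · have hc1 : Continuous fun x : ℂ =>
        (x • (1 : Matrix (Fin m) (Fin m) ℂ) + Matrix.of fun j k => a j * e k).det := by
      apply Continuous.matrix_det
      exact (continuous_id.smul continuous_const).add continuous_const
    have hc2 : Continuous fun x : ℂ => x ^ (m - 1) * (x + ∑ j, e j * a j) := by fun_prop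
    have := hc1.ext_on (dense_compl_singleton (0 : ℂ)) hc2 (fun x hx => key x hx)
    exact congrFun this x
  · exact key x hx

lemma db_sum {ι : Type*} (s : Finset ι) (F : ι → (Fin m → ℂ) → ℂ) (z : Fin m → ℂ)
    (hF : ∀ i ∈ s, DifferentiableAt ℝ (F i) z) (k : Fin m) :
    db k (fun x => ∑ i ∈ s, F i x) z = ∑ i ∈ s, db k (F i) z := by
  simp only [db]
  rw [fderiv_fun_sum hF]
  simp only [_root_.sum_apply]
  rw [Finset.mul_sum, ← Finset.sum_add_distrib, Finset.sum_div]

end General

theorem hEUL (h : StCAL) : StEUL := by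
  intro C hG z hz
  have hU : IsOpen C.U := by
    have hc : Continuous fun x : Fin C.m → ℂ => ev C.Δ x := MvPolynomial.continuous_eval _
    exact isOpen_ne.preimage hc
  have hud : ∀ x ∈ C.U, DifferentiableAt ℝ C.u x := fun x hx =>
    (hG.usm.contDiffAt (hU.mem_nhds hx)).differentiableAt (by simp)
  have hcfs : ContDiffOn ℝ ∞ (cf C.u) C.U := Complex.ofRealCLM.contDiff.comp_contDiffOn hG.usm
  have hdbs : ∀ k, ContDiffOn ℝ ∞ (db k (cf C.u)) C.U := fun k =>
    ((h _ k k (cf C.u) (cf C.u) z).2.2.2.2 C.U hU hcfs).2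
  have hdzs : ∀ k, ContDiffOn ℝ ∞ (dz k (cf C.u)) C.U := fun k =>
    ((h _ k k (cf C.u) (cf C.u) z).2.2.2.2 C.U hU hcfs).1
  have hupos : 0 < C.u z := by
    obtain ⟨a, b, ha, hab⟩ := hG.ubd
    exact lt_of_lt_of_le (mul_pos ha (hG.Xpos z hz)) (hab z hz).1
  -- (i)
  have e1 : ∀ x ∈ C.U, ∑ j, ee C.w x j * dz j (cf C.u) x = (C.u x : ℂ) / 2 := fun x hx =>
    euler_cplx h hG.w01 (hud x hx) (ρ := fun c => ‖c‖ * C.u x)
      (fun c hc => hG.uhom x hx c hc) (fun τ => norm_deriv (C.u x) τ)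
  -- (ii)
  have e2 : ∀ k, ∑ j, hes C.u z j k * ee C.w z j = db k (cf C.u) z / 2 := by
    intro k
    have h1 : (fun x => ∑ j, ee C.w x j * dz j (cf C.u) x) =ᶠ[𝓝 z]
        fun x => (1 / 2 : ℂ) * cf C.u x := by
      filter_upwards [hU.mem_nhds hz] with x hx
      rw [e1 x hx]
      simp only [cf]
      ring
    have h2 := db_congr h1 k
    have hee : ∀ j, DifferentiableAt ℂ (fun x : Fin C.m → ℂ => ee C.w x j) z := by
      intro j
      simp only [ee]
      fun_prop
    have hdz : ∀ j, DifferentiableAt ℝ (dz j (cf C.u)) z := fun j =>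
      ((hdzs j).contDiffAt (hU.mem_nhds hz)).differentiableAt (by simp)
    rw [db_sum Finset.univ (fun j x => ee C.w x j * dz j (cf C.u) x) z
      (fun j _ => ((hee j).restrictScalars ℝ).mul (hdz j))] at h2
    have h3 : ∀ j, db k (fun x => ee C.w x j * dz j (cf C.u) x) z =
        hes C.u z j k * ee C.w z j := by
      intro j
      rw [((h _ k k _ _ z).1 ((hee j).restrictScalars ℝ) (hdz j)).2.2.2.1,
        ((h _ k k _ (cf C.u) z).2.2.1 (hee j)).1, zero_mul, zero_add]
      have h4 : ContDiffAt ℝ 2 (cf C.u) z :=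
        (hcfs.contDiffAt (hU.mem_nhds hz)).of_le (by exact WithTop.coe_le_coe.2 le_top)
      rw [((h _ j k (cf C.u) (cf C.u) z).2.2.2.1 h4).1]
      simp only [hes, Matrix.of_apply]
      ring
    simp only [h3] at h2
    rw [h2, ((h _ k k _ _ z).1 (differentiableAt_const (1 / 2 : ℂ)) (cf_diff (hud z hz))).2.2.2.1,
      ((h _ k k _ (cf C.u) z).2.2.1 (differentiableAt_const (1 / 2 : ℂ))).1]
    ring
  have hdet := (hG.uhes z hz).2
  have hPd := (hG.uhes z hz).1
  have hPs : ∀ ξ, 0 ≤ hf (hes C.u z) ξ := by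
    intro ξ
    by_cases h0 : ξ = 0
    · subst h0
      simp [hf]
    · exact (hPd.2 ξ h0).le
  have hst : ∀ j, dz j (cf C.u) z = star (db j (cf C.u) z) := fun j => dz_star_db h (hud z hz) j
  -- (v)
  have hBe : ∀ ξ : Fin C.m → ℂ, ∑ j, dz j (cf C.u) z * ξ j =
      2 * BB (hes C.u z) ξ (ee C.w z) := by
    intro ξ
    have h1 : ∀ j, dz j (cf C.u) z = 2 * ∑ i, hes C.u z j i * star (ee C.w z i) := by
      intro j
      rw [hst, show db j (cf C.u) z = 2 * ∑ i, hes C.u z i j * ee C.w z i by rw [e2 j]; ring]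
      rw [star_mul', star_sum]
      have : star (2 : ℂ) = 2 := by simp
      rw [this]
      congr 1
      refine Finset.sum_congr rfl fun i _ => ?_
      rw [star_mul', hPd.1.apply]
    unfold BB
    rw [Finset.mul_sum]
    refine Finset.sum_congr rfl fun j _ => ?_
    rw [h1 j, mul_assoc, Finset.sum_mul]
    congr 1
    refine Finset.sum_congr rfl fun i _ => ?_
    ring
  have hBee : BB (hes C.u z) (ee C.w z) (ee C.w z) = ((C.u z / 4 : ℝ) : ℂ) := by
    have h1 := hBe (ee C.w z)
    have h2 := e1 z hz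
    have h3 : ∑ j, dz j (cf C.u) z * ee C.w z j = ∑ j, ee C.w z j * dz j (cf C.u) z :=
      Finset.sum_congr rfl fun j _ => mul_comm _ _
    rw [h3, h2] at h1
    push_cast
    linear_combination (-1 / 2) * h1
  have hCS : ∀ ξ, ‖∑ j, dz j (cf C.u) z * ξ j‖ ^ 2 ≤ C.u z * hf (hes C.u z) ξ := by
    intro ξ
    have h1 := BB_cs hPd.1 hPs ξ (ee C.w z) (b := C.u z / 4) (by positivity) hBee
    rw [hBe, norm_mul, mul_pow]
    have : ‖(2 : ℂ)‖ = 2 := by simp
    rw [this]
    linarith
  refine ⟨?_, ?_, ?_, ?_, hCS, ?_⟩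
  · exact e1 z hz
  · exact e2
  · -- (iii)
    intro v hv hinv
    have hvd : DifferentiableAt ℝ v z :=
      (hv.contDiffAt (hU.mem_nhds hz)).differentiableAt (by simp)
    have := euler_cplx h hG.w01 hvd (ρ := fun _ => v z) (d := 0)
      (fun c hc => hinv z hz c hc) (fun τ => by simpa using hasDerivAt_const (0 : ℝ) (v z))
    simpa [ee] using this
  · -- (iv)
    intro l
    have h1 : ∀ k, db k (cf C.u) z = 2 * ∑ j, hes C.u z j k * ee C.w z j := by
      intro k; rw [e2 k]; ring
    have h2 : (hes C.u z * (hes C.u z).adjugate) = (hes C.u z).det • 1 := Matrix.mul_adjugate _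
    have h3 : ∀ j, ∑ k, hes C.u z j k * (hes C.u z).adjugate k l =
        if j = l then (hes C.u z).det else 0 := by
      intro j
      have := congrFun (congrFun h2 j) l
      rw [Matrix.mul_apply] at this
      rw [this]
      simp [Matrix.one_apply]
    calc ∑ k, (hes C.u z).adjugate k l * db k (cf C.u) z
        = ∑ k, ∑ j, 2 * ee C.w z j * (hes C.u z j k * (hes C.u z).adjugate k l) := by
          refine Finset.sum_congr rfl fun k _ => ?_
          rw [h1 k, Finset.mul_sum, Finset.mul_sum]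
          refine Finset.sum_congr rfl fun j _ => ?_
          ring
      _ = ∑ j, 2 * ee C.w z j * ∑ k, hes C.u z j k * (hes C.u z).adjugate k l := by
          rw [Finset.sum_comm]
          refine Finset.sum_congr rfl fun j _ => ?_
          rw [Finset.mul_sum]
      _ = _ := by
          simp only [h3, mul_ite, mul_zero, Finset.sum_ite_eq', Finset.mem_univ, if_true, ee]
          ring
  · -- (vi)
    intro f hf'
    have hfd : DifferentiableAt ℝ f (C.u z) :=
      (hf'.contDiffAt (isOpen_Ioi.mem_nhds hupos)).differentiableAt (by simp)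
    have hf2 : ContDiffOn ℝ ∞ (deriv f) (Set.Ioi 0) :=
      hf'.deriv_of_isOpen isOpen_Ioi (by simp)
    have hfd2 : DifferentiableAt ℝ (deriv f) (C.u z) :=
      (hf2.contDiffAt (isOpen_Ioi.mem_nhds hupos)).differentiableAt (by simp)
    have hpos' : ∀ x ∈ C.U, 0 < C.u x := by
      intro x hx
      obtain ⟨a, b, ha, hab⟩ := hG.ubd
      exact lt_of_lt_of_le (mul_pos ha (hG.Xpos x hx)) (hab x hx).1
    obtain ⟨p, hp⟩ : ∃ p : ℝ, p = deriv f (C.u z) := ⟨_, rfl⟩
    obtain ⟨q, hq⟩ : ∃ q : ℝ, q = deriv (deriv f) (C.u z) := ⟨_, rfl⟩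
    rw [← hp, ← hq]
    have hhes : ∀ j k, hes (fun x => f (C.u x)) z j k =
        (p : ℂ) * hes C.u z j k + (q : ℂ) * (dz j (cf C.u) z * db k (cf C.u) z) := by
      intro j k
      have h1 : db k (cf fun x => f (C.u x)) =ᶠ[𝓝 z]
          fun x => cf (fun x => deriv f (C.u x)) x * db k (cf C.u) x := by
        filter_upwards [hU.mem_nhds hz] with x hx
        have hfx : DifferentiableAt ℝ f (C.u x) :=
          (hf'.contDiffAt (isOpen_Ioi.mem_nhds (hpos' x hx))).differentiableAt (by simp)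
        rw [comp_db (hud x hx) hfx]
        rfl
      have h2 : hes (fun x => f (C.u x)) z j k = dz j (db k (cf fun x => f (C.u x))) z := rfl
      rw [h2, dz_congr h1]
      have h3 : DifferentiableAt ℝ (fun x => deriv f (C.u x)) z :=
        hfd2.comp z (hud z hz)
      have h4 : DifferentiableAt ℝ (db k (cf C.u)) z :=
        ((hdbs k).contDiffAt (hU.mem_nhds hz)).differentiableAt (by simp)
      rw [((h _ j j _ _ z).1 (cf_diff h3) h4).2.2.1, comp_dz (hud z hz) hfd2, ← hq]
      have h5 : cf (fun x => deriv f (C.u x)) z = (p : ℂ) := by rw [hp]; rfl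
      have h6 : hes C.u z j k = dz j (db k (cf C.u)) z := rfl
      rw [h5, h6]
      ring
    constructor
    · -- the determinant
      have h1 : hes (fun x => f (C.u x)) z =
          ((p : ℂ) • (1 : Matrix (Fin C.m) (Fin C.m) ℂ) +
            Matrix.of fun j k => (2 * (q : ℂ) * dz j (cf C.u) z) * ee C.w z k) * hes C.u z := by
        ext j k
        rw [hhes, Matrix.add_mul, Matrix.add_apply, Matrix.smul_mul, Matrix.one_mul,
          Matrix.smul_apply, smul_eq_mul, Matrix.mul_apply]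
        congr 1
        have h2 : db k (cf C.u) z = 2 * ∑ i, hes C.u z i k * ee C.w z i := by rw [e2 k]; ring
        rw [h2]
        simp only [Finset.mul_sum, Matrix.of_apply]
        refine Finset.sum_congr rfl fun i _ => ?_
        ring
      have hm2 : 2 ≤ C.m := by
        have := hG.hm
        have := hG.hn
        omega
      rw [h1, Matrix.det_mul, det_rank_one hm2, hdet]
      have h3 : ∑ j, ee C.w z j * (2 * (q : ℂ) * dz j (cf C.u) z) = (q : ℂ) * C.u z := by
        have h4 : ∑ j, ee C.w z j * (2 * (q : ℂ) * dz j (cf C.u) z) =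
            2 * q * ∑ j, ee C.w z j * dz j (cf C.u) z := by
          rw [Finset.mul_sum]
          refine Finset.sum_congr rfl fun j _ => ?_
          ring
        rw [h4, e1 z hz]
        ring
      rw [h3]
      push_cast
      ring
    · -- positivity
      intro hp0 hq0
      constructor
      · ext j k
        rw [Matrix.conjTranspose_apply, hhes, hhes]
        simp only [star_add, star_mul', Complex.star_def, Complex.conj_ofReal]
        have h1 : (starRingEnd ℂ) (hes C.u z k j) = hes C.u z j k := hPd.1.apply j k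
        have h2 : (starRingEnd ℂ) (dz k (cf C.u) z) = db k (cf C.u) z := by
          rw [hst, Complex.star_def, Complex.conj_conj]
        have h3 : (starRingEnd ℂ) (db j (cf C.u) z) = dz j (cf C.u) z := by
          rw [hst, Complex.star_def]
        rw [h1, h2, h3]
        ring
      · intro ξ
        have h1 : hf (hes (fun x => f (C.u x)) z) ξ =
            p * hf (hes C.u z) ξ + q * ‖∑ j, dz j (cf C.u) z * ξ j‖ ^ 2 := by
          have h2 : (∑ j, ∑ k, hes (fun x => f (C.u x)) z j k * ξ j * star (ξ k)) =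
              (p : ℂ) * (∑ j, ∑ k, hes C.u z j k * ξ j * star (ξ k)) +
              (q : ℂ) * ((‖∑ j, dz j (cf C.u) z * ξ j‖ ^ 2 : ℝ) : ℂ) := by
            have h3 : ((‖∑ j, dz j (cf C.u) z * ξ j‖ ^ 2 : ℝ) : ℂ) =
                (∑ j, dz j (cf C.u) z * ξ j) * ∑ k, db k (cf C.u) z * star (ξ k) := by
              rw [← Complex.normSq_eq_norm_sq, ← Complex.mul_conj, map_sum]
              congr 1
              refine Finset.sum_congr rfl fun k _ => ?_
              rw [map_mul, hst, Complex.star_def, Complex.conj_conj]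
            rw [h3, Finset.sum_mul_sum]
            simp only [Finset.mul_sum, ← Finset.sum_add_distrib]
            refine Finset.sum_congr rfl fun j _ => Finset.sum_congr rfl fun k _ => ?_
            rw [hhes]
            ring
          unfold hf
          rw [h2, Complex.add_re, Complex.re_ofReal_mul, Complex.re_ofReal_mul,
            Complex.ofReal_re]
        rw [h1]
        have h4 := hCS ξ
        have h5 := hPs ξ
        have h6 : 0 ≤ ‖∑ j, dz j (cf C.u) z * ξ j‖ ^ 2 := by positivity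
        rcases le_or_gt 0 q with h7 | h7
        · positivity
        · nlinarith [mul_le_mul_of_nonpos_left h4 h7.le, mul_nonneg hq0 h5]

end Pool.Agent.Helper22.KP
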