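import Pool.Agent.Helper52.KP.StF

/-!
# Project KP, module FF5 (Jacobians)
-/

set_option autoImplicit false

namespace Pool.Agent.Helper22.KP

open Pool.Agent.Helper67.NO MeasureTheory Filter Pool.Agent.Helper52.KP
open scoped ContDiff ComplexOrder Topology

universe u

section General

variable {m : ℕ}

/-- the derivative of a polynomial -/
noncomputable def dQ (P : MvPolynomial (Fin m) ℂ) (z : Fin m → ℂ) : (Fin m → ℂ) →L[ℂ] ℂ :=
  ∑ j, ev (MvPolynomial.pderiv j P) z • (ContinuousLinearMap.proj j : (Fin m → ℂ) →L[ℂ] ℂ)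

lemma dQ_apply (P : MvPolynomial (Fin m) ℂ) (z v : Fin m → ℂ) :
    dQ P z v = ∑ j, ev (MvPolynomial.pderiv j P) z * v j := by
  unfold dQ
  rw [_root_.sum_apply]
  rfl

lemma dQ_single (P : MvPolynomial (Fin m) ℂ) (z : Fin m → ℂ) (j : Fin m) (c : ℂ) :
    dQ P z (Pi.single j c) = ev (MvPolynomial.pderiv j P) z * c := by
  rw [dQ_apply, Finset.sum_eq_single j]
  · simp
  · intro i _ hi
    simp [hi]
  · intro h
    exact absurd (Finset.mem_univ j) h

lemma hasF_evQ (P : MvPolynomial (Fin m) ℂ) (z : Fin m → ℂ) :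
    HasFDerivAt (fun w => ev P w) (dQ P z) z := by
  induction P using MvPolynomial.induction_on with
  | C a =>
    have h : dQ (MvPolynomial.C a) z = 0 := by
      ext v
      simp [dQ_apply]
    rw [h]
    simpa using hasFDerivAt_const (a : ℂ) z
  | add p q hp hq =>
    have h : dQ (p + q) z = dQ p z + dQ q z := by
      refine ContinuousLinearMap.ext fun v => ?_
      simp only [dQ_apply, map_add, add_apply, add_mul, Finset.sum_add_distrib]
    rw [h]
    have h2 : (fun w : Fin m → ℂ => ev (p + q) w) = fun w => ev p w + ev q w := by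
      funext w
      simp
    rw [h2]
    exact hp.fun_add hq
  | mul_X p i hp =>
    have h : dQ (p * MvPolynomial.X i) z = ev p z • (ContinuousLinearMap.proj i : (Fin m → ℂ) →L[ℂ] ℂ)
        + z i • dQ p z := by
      refine ContinuousLinearMap.ext fun v => ?_
      simp only [dQ_apply, MvPolynomial.pderiv_mul, map_add, map_mul, MvPolynomial.eval_X,
        add_apply, add_mul, Finset.sum_add_distrib]
      change _ = ev p z * v i + z i * dQ p z v
      rw [dQ_apply, add_comm]
      congr 1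
      · rw [Finset.sum_eq_single i]
        · simp
        · intro j _ hj
          rw [MvPolynomial.pderiv_X_of_ne (by exact fun h => hj h.symm)]
          simp
        · simp
      · rw [Finset.mul_sum]
        apply Finset.sum_congr rfl
        intro j _
        ring
    rw [h]
    have h2 : (fun w : Fin m → ℂ => ev (p * MvPolynomial.X i) w) = fun w => ev p w * w i := by
      funext w
      simp
    rw [h2]
    have hi : HasFDerivAt (fun x : Fin m → ℂ => x i)
      (ContinuousLinearMap.proj i : (Fin m → ℂ) →L[ℂ] ℂ) z := hasFDerivAt_apply i z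
    exact hp.fun_mul hi

lemma dz_ev (P : MvPolynomial (Fin m) ℂ) (z : Fin m → ℂ) (j : Fin m) :
    dz j (fun w => ev P w) z = ev (MvPolynomial.pderiv j P) z := by
  have h1 : HasFDerivAt (𝕜 := ℝ) (fun w => ev P w) ((dQ P z).restrictScalars ℝ) z :=
    (hasF_evQ P z).restrictScalars ℝ
  have h2 : ∀ v, ((dQ P z).restrictScalars ℝ) v = dQ P z v := fun _ => rfl
  unfold dz
  rw [h1.fderiv, h2, h2, dQ_single, dQ_single]
  linear_combination (-1 / 2) * (ev (MvPolynomial.pderiv j P) z) * Complex.I_mul_I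

/-- homogeneity of the derivatives -/
lemma pderiv_hom {w : Fin m → ℕ} {P : MvPolynomial (Fin m) ℂ} {k : ℕ} {c : ℂ}
    (h : ∀ z, ev P (scl w c z) = c ^ k * ev P z) (z : Fin m → ℂ) (j : Fin m) :
    ev (MvPolynomial.pderiv j P) (scl w c z) * c ^ w j =
      c ^ k * ev (MvPolynomial.pderiv j P) z := by
  have hL : HasFDerivAt (fun x => scl w c x)
      (ContinuousLinearMap.pi fun i => c ^ w i • (ContinuousLinearMap.proj i :
        (Fin m → ℂ) →L[ℂ] ℂ)) z := by
    rw [hasFDerivAt_pi]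
    intro i
    exact (hasFDerivAt_apply i z).const_mul (c ^ w i)
  have h1 := (hasF_evQ P (scl w c z)).comp z hL
  have h2 := (hasF_evQ P z).const_mul (c ^ k)
  have h3 : (fun x => ev P x) ∘ (fun x => scl w c x) = fun x => c ^ k * ev P x := by
    funext x
    exact h x
  rw [h3] at h1
  have h4 := congrArg (fun L : (Fin m → ℂ) →L[ℂ] ℂ => L (Pi.single j 1)) (h1.unique h2)
  simp only [ContinuousLinearMap.comp_apply, smul_apply, smul_eq_mul] at h4
  have h5 : (ContinuousLinearMap.pi fun i => c ^ w i • (ContinuousLinearMap.proj i :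
      (Fin m → ℂ) →L[ℂ] ℂ)) (Pi.single j 1) = Pi.single j (c ^ w j) := by
    funext i
    simp only [ContinuousLinearMap.coe_pi', smul_apply, ContinuousLinearMap.proj_apply,
      smul_eq_mul, Pi.single_apply]
    by_cases hi : i = j
    · subst hi; simp
    · simp [hi]
  rw [h5, dQ_single, dQ_single, mul_one] at h4
  exact h4

lemma ev_jac (f : Fin m → MvPolynomial (Fin m) ℂ) (z : Fin m → ℂ) :
    ev (jac f) z = (Matrix.of fun i j => ev (MvPolynomial.pderiv j (f i)) z).det := by
  unfold jac ev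
  rw [RingHom.map_det]
  rfl

lemma jac_hom {w : Fin m → ℕ} {f : Fin m → MvPolynomial (Fin m) ℂ} {k : Fin m → ℕ} {c : ℂ}
    (h : ∀ i z, ev (f i) (scl w c z) = c ^ k i * ev (f i) z) (z : Fin m → ℂ) :
    ev (jac f) (scl w c z) * c ^ (∑ j, w j) = c ^ (∑ i, k i) * ev (jac f) z := by
  rw [ev_jac, ev_jac]
  have h1 : (Matrix.of fun i j => ev (MvPolynomial.pderiv j (f i)) (scl w c z)) *
      Matrix.diagonal (fun j => c ^ w j) =
      Matrix.diagonal (fun i => c ^ k i) *
        (Matrix.of fun i j => ev (MvPolynomial.pderiv j (f i)) z) := by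
    ext i j
    rw [Matrix.mul_diagonal, Matrix.diagonal_mul, Matrix.of_apply, Matrix.of_apply]
    exact pderiv_hom (h i) z j
  have h2 := congrArg Matrix.det h1
  rw [Matrix.det_mul, Matrix.det_mul, Matrix.det_diagonal, Matrix.det_diagonal,
    Finset.prod_pow_eq_pow_sum, Finset.prod_pow_eq_pow_sum] at h2
  exact h2

/-- proportional powers have proportional derivatives -/
lemma prop_pow {p q : MvPolynomial (Fin m) ℂ} {α β : ℂ} {a : ℕ} (ha : 0 < a) (hα : α ≠ 0)
    (h : MvPolynomial.C α * p ^ a = MvPolynomial.C β * q ^ a) (j : Fin m) :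
    q * MvPolynomial.pderiv j p = p * MvPolynomial.pderiv j q := by
  by_cases hp : p = 0
  · subst hp; simp
  have h1 := congrArg (MvPolynomial.pderiv j) h
  rw [MvPolynomial.pderiv_mul, MvPolynomial.pderiv_mul, MvPolynomial.pderiv_C,
    MvPolynomial.pderiv_C, zero_mul, zero_mul, zero_add, zero_add, Derivation.leibniz_pow,
    Derivation.leibniz_pow] at h1
  obtain ⟨b, rfl⟩ : ∃ b, a = b + 1 := ⟨a - 1, by omega⟩
  simp only [Nat.add_sub_cancel, smul_eq_mul, nsmul_eq_mul] at h1
  have hne : MvPolynomial.C α * ((b + 1 : ℕ) : MvPolynomial (Fin m) ℂ) * p ^ (b + 1) ≠ 0 := by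
    refine mul_ne_zero (mul_ne_zero ?_ ?_) (pow_ne_zero _ hp)
    · rwa [Ne, MvPolynomial.C_eq_zero]
    · exact_mod_cast Nat.succ_ne_zero b
  apply mul_left_cancel₀ hne
  have e1 : MvPolynomial.C α * ((b + 1 : ℕ) : MvPolynomial (Fin m) ℂ) * p ^ (b + 1) *
      (q * MvPolynomial.pderiv j p) = p * q * (MvPolynomial.C α *
        (((b + 1 : ℕ) : MvPolynomial (Fin m) ℂ) * (p ^ b * MvPolynomial.pderiv j p))) := by ring
  have e2 : MvPolynomial.C α * ((b + 1 : ℕ) : MvPolynomial (Fin m) ℂ) * p ^ (b + 1) *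
      (p * MvPolynomial.pderiv j q) = p * ((b + 1 : ℕ) : MvPolynomial (Fin m) ℂ) *
        MvPolynomial.pderiv j q * (MvPolynomial.C α * p ^ (b + 1)) := by ring
  rw [e1, h1, e2, h]
  ring

end General

section Chart

variable {g : Type u} [LieRing g] [LieAlgebra ℂ g] [FiniteDimensional ℂ g] {x₀ : g}

lemma ff5_size (C : Ch x₀) (z : Fin C.m → ℂ) : ∑ i, ‖ev (C.pol i) z‖ = size (C.Φ z) := by
  unfold size
  refine Finset.sum_congr rfl fun i _ => ?_
  have := C.pol_spec i z
  unfold co at this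
  rw [this]

lemma ff5_adm (C : Ch x₀) (z : Fin C.m → ℂ) :
    C.adm.map (MvPolynomial.eval z) =
      LinearMap.toMatrix (Module.finBasis ℂ g) (Module.finBasis ℂ g)
        (LieAlgebra.ad ℂ g (C.Φ z) : g →ₗ[ℂ] g) := by
  have h1 : C.Φ z = ∑ l, MvPolynomial.eval z (C.pol l) • Module.finBasis ℂ g l := by
    have h2 := (Module.finBasis ℂ g).sum_repr (C.Φ z)
    conv_lhs => rw [← h2]
    refine Finset.sum_congr rfl fun l _ => ?_
    rw [← C.pol_spec l z]
    rfl
  rw [h1, map_sum]
  ext a b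
  simp only [Ch.adm, Matrix.map_apply, Matrix.sum_apply, map_sum, Matrix.smul_apply, smul_eq_mul,
    map_mul, MvPolynomial.eval_C, map_smul]

lemma ff5_mns (C : Ch x₀) (ρ : g → ℝ) (y : Fin C.m → (g →ₗ[ℂ] ℂ)) (rd : ℕ) (z : Fin C.m → ℂ) :
    ∑ i, ‖ev ((mkCone C ρ y rd).Q i) z‖ = mns C.m (C.Φ z) := by
  have h1 : ∀ ab : (Fin C.m → Fin (Module.finrank ℂ g)) × (Fin C.m → Fin (Module.finrank ℂ g)),
      ev (C.min ab) z = mnr ab.1 ab.2 (C.Φ z) := by
    intro ab
    unfold Ch.min mnr ev
    rw [RingHom.map_det, ← ff5_adm]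
    rfl
  have h2 : ∑ i, ‖ev ((mkCone C ρ y rd).Q i) z‖ =
      ∑ ab : (Fin C.m → Fin (Module.finrank ℂ g)) × (Fin C.m → Fin (Module.finrank ℂ g)),
        ‖ev (C.min ab) z‖ := by
    refine Fintype.sum_equiv (Fintype.equivFin _).symm _ _ fun i => ?_
    rfl
  rw [h2, Fintype.sum_prod_type]
  unfold mns
  refine Finset.sum_congr rfl fun a _ => Finset.sum_congr rfl fun b _ => ?_
  rw [h1]

lemma ff5_open (K : Cone) : IsOpen K.U := by
  have hc : Continuous fun x : Fin K.m → ℂ => ev K.Δ x := MvPolynomial.continuous_eval _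
  exact isOpen_ne.preimage hc

lemma ff5_set (K : Cone) (r δ : ℝ) :
    MeasurableSet {z | z ∈ K.U ∧ K.sz z ≤ r ∧ δ ≤ ∑ i, ‖ev (K.Q i) z‖} := by
  have h1 : Continuous fun z : Fin K.m → ℂ => K.sz z := by
    unfold Cone.sz
    exact continuous_finsetSum _ fun i _ => (MvPolynomial.continuous_eval _).norm
  have h2 : Continuous fun z : Fin K.m → ℂ => ∑ i, ‖ev (K.Q i) z‖ :=
    continuous_finsetSum _ fun i _ => (MvPolynomial.continuous_eval _).norm
  exact (ff5_open K).measurableSet.inter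
    ((measurableSet_le h1.measurable measurable_const).inter
      (measurableSet_le measurable_const h2.measurable))

end Chart

lemma ff5_int (hJCN : StJCN.{u}) {g : Type u} [LieRing g] [LieAlgebra ℂ g]
    [FiniteDimensional ℂ g] [LieAlgebra.IsSemisimple ℂ g] {x₀ : g} (hx : x₀ ≠ 0)
    (hnil : IsNilpotent (LieAlgebra.ad ℂ g x₀)) (C : Ch x₀) (ρ : g → ℝ)
    (y : Fin C.m → (g →ₗ[ℂ] ℂ)) (rd : ℕ) (K : Cone) (hK : K = mkCone C ρ y rd)
    (k : Fin K.m → ℕ) (f : Fin K.m → MvPolynomial (Fin K.m) ℂ) (hf : ∀ i, f i ∈ K.R (k i))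
    (r δ : ℝ) (hδ : 0 < δ) :
    IntegrableOn (fun z => ‖ev (jac f) z‖ ^ 2)
      {z | z ∈ K.U ∧ K.sz z ≤ r ∧ δ ≤ ∑ i, ‖ev (K.Q i) z‖} := by
  have hmeas := ff5_set K r δ
  have hop := ff5_open K
  subst hK
  choose F hF hFe using hf
  have h1 := hJCN g x₀ hx hnil C k F hF r δ hδ
  have hset : {z | z ∈ (mkCone C ρ y rd).U ∧ (mkCone C ρ y rd).sz z ≤ r ∧
      δ ≤ ∑ i, ‖ev ((mkCone C ρ y rd).Q i) z‖} =
      {z | MvPolynomial.eval z C.Δ ≠ 0 ∧ size (C.Φ z) ≤ r ∧ δ ≤ mns C.m (C.Φ z)} := by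
    ext z
    have e1 : (mkCone C ρ y rd).sz z = size (C.Φ z) := ff5_size C z
    have e2 := ff5_mns C ρ y rd z
    simp only [Set.mem_setOf_eq]
    rw [e1, e2]
    rfl
  rw [hset] at hmeas ⊢
  refine h1.congr_fun ?_ hmeas
  intro z hz
  have hzU : z ∈ (mkCone C ρ y rd).U := hz.1
  simp only
  congr 2
  have h2 : ev (jac f) z = (Matrix.of fun i j => ev (MvPolynomial.pderiv j (f i)) z).det :=
    ev_jac f z
  rw [h2]
  congr 1
  ext i j
  rw [Matrix.of_apply, Matrix.of_apply, ← dz_ev]
  have h3 : (fun z => ext (F i) (C.Φ z)) =ᶠ[𝓝 z] fun w => ev (f i) w := by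
    filter_upwards [hop.mem_nhds hzU] with x hx
    exact (hFe i x hx).symm
  simp only [dz, h3.fderiv_eq]
  rfl

lemma li_line {V ι : Type*} [AddCommGroup V] [Module ℂ V] (t : ι → ℂ) (u : V) (j₀ j₁ : ι)
    (h : j₁ ≠ j₀) (hli : LinearIndependent ℂ (fun j => t j • u)) : False := by
  have h0 : t j₀ ≠ 0 := by
    intro h0
    apply hli.ne_zero j₀
    rw [h0, zero_smul]
  have h1 : j₁ ∉ ({j₀} : Set ι) := h
  have h2 := hli.notMem_span_image h1
  rw [Set.image_singleton, Submodule.mem_span_singleton] at h2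
  apply h2
  refine ⟨t j₁ / t j₀, ?_⟩
  rw [smul_smul, div_mul_cancel₀ _ h0]

lemma ff5_imm {g : Type u} [LieRing g] [LieAlgebra ℂ g]
    [FiniteDimensional ℂ g] {x₀ : g} (C : Ch x₀) (ρ : g → ℝ)
    (y : Fin C.m → (g →ₗ[ℂ] ℂ)) (rd : ℕ) (K : Cone) (hK : K = mkCone C ρ y rd)
    (z : Fin K.m → ℂ) (hz : z ∈ K.U) (t : Fin K.m → ℂ)
    (h : ∀ j i, ev (MvPolynomial.pderiv j (K.X i)) z = t j * ev (K.X i) z) : False := by
  subst hK
  have hli := C.imm z hz
  have hD : HasFDerivAt (fun z => co (C.Φ z)) (ContinuousLinearMap.pi fun i => dQ (C.pol i) z) z := by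
    rw [hasFDerivAt_pi]
    intro i
    refine (hasF_evQ (C.pol i) z).congr_of_eventuallyEq (Eventually.of_forall fun x => ?_)
    exact C.pol_spec i x
  rw [hD.fderiv] at hli
  have hv : ∀ j : Fin C.m, (ContinuousLinearMap.pi fun i => dQ (C.pol i) z)
      (Pi.single j (1 : ℂ)) = t j • co (C.Φ z) := by
    intro j
    funext i
    rw [ContinuousLinearMap.pi_apply, dQ_single, mul_one, Pi.smul_apply, smul_eq_mul,
      C.pol_spec i z]
    exact h j i
  simp only [hv] at hli
  have hm : 2 ≤ C.m := by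
    have := C.hm
    have := C.hn
    omega
  have h0 : (⟨1, by omega⟩ : Fin C.m) ≠ ⟨0, by omega⟩ := by
    intro h
    have := congrArg Fin.val h
    simp at this
  exact li_line t _ _ _ h0 hli

theorem hFF5 (hJCN : StJCN.{u}) (hFF1 : StFF1.{u}) (hFF2 : StFF2.{u}) (hFF3 : StFF3.{u})
    (hFF4 : StFF4.{u}) : StFF5.{u} := by
  intro g _ _ _ _ x₀ hx hnil ρ hρ C y rd hHD K hK k f hf
  obtain ⟨-, a2, a3, a4, a5⟩ := hFF1 g x₀ hx hnil C ρ y rd K hK
  obtain ⟨-, b2, -, -⟩ := hFF2 g x₀ hx hnil C ρ y rd hHD K hK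
  obtain ⟨c1, c2, c3, -⟩ := hFF3 g x₀ hx hnil C ρ y rd hHD K hK
  obtain ⟨d1, -⟩ := hFF4 g x₀ hx hnil ρ hρ C y rd hHD K hK
  have hint := ff5_int hJCN hx hnil C ρ y rd K hK k f hf
  have himm := ff5_imm C ρ y rd K hK
  have hdeg : K.jd + ∑ j, K.w j = K.n := by
    subst hK
    exact C.deg
  have hΔ : K.Δ ≠ 0 := by
    subst hK
    exact C.Δ0
  have hdiff : ∀ P : MvPolynomial (Fin K.m) ℂ, Differentiable ℂ fun z => ev P z := fun P z =>
    (hasF_evQ P z).differentiableAt
  have hhom : ∀ (c : ℂ) z, ev (jac f) (scl K.w c z) * c ^ (∑ j, K.w j) =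
      c ^ (∑ i, k i) * ev (jac f) z := fun c z =>
    jac_hom (fun i z => a4 (k i) (f i) (hf i) c z) z
  have hone : ∀ c : ℂ, ‖c‖ = 1 → c ≠ 0 := by
    intro c hc h0
    rw [h0, norm_zero] at hc
    exact zero_ne_one hc
  -- the case of small degrees
  have hsmall : ∑ i, k i < K.n → jac f = 0 := by
    intro hlt
    by_contra hne
    obtain ⟨a, ha⟩ : ∃ a, a = K.n - ∑ i, k i := ⟨_, rfl⟩
    have ha0 : 0 < a := by omega
    have key : ∀ f' ∈ K.R a, ∃ c : ℂ, jac f * f' = MvPolynomial.C c * K.J := by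
      intro f' hf'
      obtain ⟨s, hs, hse⟩ := d1 0 (fun z => ev (jac f) z * ev f' z)
        ((hdiff _).mul (hdiff _)).differentiableOn (by
          intro c hc z _
          have hc0 := hone c hc
          have e1 := hhom c z
          have e2 := a4 a f' hf' c z
          have e3 : c ^ (∑ j, K.w j) ≠ 0 := pow_ne_zero _ hc0
          apply mul_right_cancel₀ e3
          have e4 : c ^ (∑ i, k i) * c ^ a = c ^ (0 + K.jd) * c ^ (∑ j, K.w j) := by
            rw [← pow_add, ← pow_add]
            congr 1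
            omega
          rw [e2]
          linear_combination (c ^ a * ev f' z) * e1 + (ev (jac f) z * ev f' z) * e4) (by
          intro r δ hδ
          obtain ⟨B, hB⟩ := c3 a f' hf'
          have h1 := (hint r δ hδ).const_mul ((|B| * |r| ^ a) ^ 2)
          refine Integrable.mono' h1 ?_ ?_
          · exact (((hdiff _).continuous.mul (hdiff _).continuous).norm.pow 2).aestronglyMeasurable
          · rw [ae_restrict_iff' (ff5_set K r δ)]
            refine Eventually.of_forall fun z hz => ?_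
            have hsz : 0 ≤ K.sz z := by
              unfold Cone.sz
              exact Finset.sum_nonneg fun i _ => norm_nonneg _
            have h2 : ‖ev f' z‖ ≤ |B| * |r| ^ a := by
              refine (hB z).trans ?_
              refine mul_le_mul (le_abs_self B) ?_ (pow_nonneg hsz _) (abs_nonneg _)
              exact pow_le_pow_left₀ hsz (hz.2.1.trans (le_abs_self r)) _
            have h3 : ‖ev f' z‖ ^ 2 ≤ (|B| * |r| ^ a) ^ 2 :=
              pow_le_pow_left₀ (norm_nonneg _) h2 2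
            rw [Real.norm_of_nonneg (by positivity), norm_mul, mul_pow, mul_comm]
            exact mul_le_mul_of_nonneg_right h3 (by positivity))
      obtain ⟨c, hc⟩ := b2 s hs
      refine ⟨c, ?_⟩
      rw [← hc]
      apply a5
      intro z hz
      have := hse z hz
      simp only [ev, map_mul] at this ⊢
      exact this
    -- powers of the functions `X`
    have hXp : ∀ i (b : ℕ), K.X i ^ b ∈ K.R b := by
      intro i b
      induction b with
      | zero => rw [pow_zero]; exact a2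
      | succ b ih => rw [pow_succ]; exact a3 b 1 _ _ ih (c1 i)
    obtain ⟨z₁, hz₁⟩ : ∃ z₁, z₁ ∈ K.U := by
      by_contra hcon
      push Not at hcon
      apply hΔ
      apply MvPolynomial.funext
      intro z
      have := hcon z
      unfold Cone.U at this
      have h1 : ev K.Δ z = 0 := by
        by_contra h2
        exact this h2
      rw [map_zero]
      exact h1
    obtain ⟨i₀, hi₀⟩ : ∃ i₀, ev (K.X i₀) z₁ ≠ 0 := by
      by_contra hcon
      push Not at hcon
      have h1 := c2 z₁ hz₁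
      unfold Cone.sz at h1
      simp [hcon] at h1
    have hq : K.X i₀ ≠ 0 := by
      intro h0
      rw [h0] at hi₀
      exact hi₀ (map_zero _)
    choose c hc using fun i => key (K.X i ^ a) (hXp i a)
    have hc0 : c i₀ ≠ 0 := by
      intro h0
      have h1 := hc i₀
      rw [h0, map_zero, zero_mul] at h1
      exact mul_ne_zero hne (pow_ne_zero _ hq) h1
    have hprop : ∀ i, MvPolynomial.C (c i₀) * K.X i ^ a =
        MvPolynomial.C (c i) * K.X i₀ ^ a := by
      intro i
      apply mul_left_cancel₀ hne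
      have h1 := hc i
      have h2 := hc i₀
      calc jac f * (MvPolynomial.C (c i₀) * K.X i ^ a)
          = MvPolynomial.C (c i₀) * (jac f * K.X i ^ a) := by ring
        _ = MvPolynomial.C (c i) * (MvPolynomial.C (c i₀) * K.J) := by rw [h1]; ring
        _ = MvPolynomial.C (c i) * (jac f * K.X i₀ ^ a) := by rw [h2]
        _ = _ := by ring
    refine himm z₁ hz₁ (fun j => ev (MvPolynomial.pderiv j (K.X i₀)) z₁ / ev (K.X i₀) z₁) ?_
    intro j i
    have h1 := prop_pow ha0 hc0 (hprop i) j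
    have h2 := congrArg (fun P => ev P z₁) h1
    simp only [ev, map_mul] at h2
    have h3 : ev (K.X i₀) z₁ * ev (MvPolynomial.pderiv j (K.X i)) z₁ =
      ev (K.X i) z₁ * ev (MvPolynomial.pderiv j (K.X i₀)) z₁ := h2
    field_simp
    linear_combination h3
  refine ⟨?_, hsmall⟩
  rcases le_or_gt K.n (∑ i, k i) with hle | hlt
  · obtain ⟨s, hs, hse⟩ := d1 (∑ i, k i - K.n) (fun z => ev (jac f) z)
      (hdiff _).differentiableOn (by
        intro c hc z _
        have hc0 := hone c hc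
        have e1 := hhom c z
        have e3 : c ^ (∑ j, K.w j) ≠ 0 := pow_ne_zero _ hc0
        apply mul_right_cancel₀ e3
        have e4 : c ^ (∑ i, k i) = c ^ (∑ i, k i - K.n + K.jd) * c ^ (∑ j, K.w j) := by
          rw [← pow_add]
          congr 1
          omega
        rw [e1, e4]
        ring) (fun r δ hδ => hint r δ hδ)
    refine ⟨s, hs, ?_⟩
    apply a5
    intro z hz
    have := hse z hz
    simp only [ev, map_mul] at this ⊢
    exact this
  · refine ⟨0, Submodule.zero_mem _, ?_⟩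
    rw [hsmall hlt, zero_mul]

end Pool.Agent.Helper22.KP
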