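import Pool.Agent.Helper93.KP.St

set_option autoImplicit false

noncomputable section

namespace Pool.Agent.Helper22.KP

open Finset Filter Topology
open Pool.Agent.Helper93.KP
open Pool.Agent.Helper9.TW (iv bx Rg cc Dec WF bm ms ind UpP LoP gm Ax GUp GLo Qs fm ej
  StFOU StMER StMSB StINQ StWFJ StPOS StC5 StC6 StC9 StAX StD1 StD2 StD3 StD4)

private theorem gm_nonneg_FSP (j : ℕ) (hj : 1 ≤ j) : 0 ≤ gm j := by
  unfold gm
  apply Real.log_nonneg
  have : (0 : ℝ) < j := by exact_mod_cast hj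
  rw [le_div_iff₀ this]
  linarith

theorem hFSP (hA : StAX) (h4 : StD4) (h5 : StD5P) (h6 : StD6P) : StFSP := by
  intro θ hθ hθ1
  obtain ⟨u₀, hu₀⟩ := h6
  set S : ℕ := ⌈(3 / 2 : ℝ) / θ⌉₊ with hS
  have hS1 : (3 / 2 : ℝ) / θ ≤ S := Nat.le_ceil _
  have hS2 : (S : ℝ) < (3 / 2 : ℝ) / θ + 1 := Nat.ceil_lt_add_one (by positivity)
  obtain ⟨g1, g2, g3⟩ := h5 S
  obtain ⟨-, g4⟩ := h4 S (11947 / 10000) (by norm_num) g1
  obtain ⟨js1, k1⟩ := g4 (1 / 1000) (by norm_num)
  obtain ⟨js2, k2⟩ := g2 (1 / 1000) (by norm_num)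
  obtain ⟨js3, k3⟩ := g3 (1 / 1000) (by norm_num)
  set js : ℕ := js1 + js2 + js3 + 2 with hjs
  set u : ℕ := u₀ + ⌈(js : ℝ) / θ⌉₊ with hu
  have hu1 : (js : ℝ) / θ ≤ u := by
    have := Nat.le_ceil ((js : ℝ) / θ)
    have h : ((⌈(js : ℝ) / θ⌉₊ : ℕ) : ℝ) ≤ u := by
      exact_mod_cast Nat.le_add_left _ _
    linarith
  have hjsu : (js : ℝ) ≤ u * θ := by
    rw [div_le_iff₀ hθ] at hu1
    exact hu1
  have hjs2 : (2 : ℝ) ≤ js := by
    exact_mod_cast (by omega : 2 ≤ js)
  have hupos : (0 : ℝ) < u := by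
    by_contra hcon
    push Not at hcon
    have : (u : ℝ) * θ ≤ 0 := mul_nonpos_of_nonpos_of_nonneg hcon hθ.le
    linarith
  have hu200 : (200 : ℝ) ≤ u := by
    by_contra hcon
    push Not at hcon
    have : (u : ℝ) * θ < 200 * (1 / 100) := by
      apply mul_lt_mul_of_lt_of_le_of_nonneg_of_pos hcon hθ1 hupos.le (by norm_num)
    linarith
  have hu1' : 1 ≤ u := by
    have : (1 : ℝ) ≤ u := by linarith
    exact_mod_cast this
  set j0 : ℕ := ⌊20000 * (u : ℝ) * θ⌋₊ with hj0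
  have hj0le : (j0 : ℝ) ≤ 20000 * u * θ := Nat.floor_le (by positivity)
  have hj0lt : 20000 * (u : ℝ) * θ < j0 + 1 := Nat.lt_floor_add_one _
  have hj0js : js ≤ j0 := by
    have h : (js : ℝ) ≤ 20000 * u * θ := by
      have : (0 : ℝ) ≤ u * θ := by positivity
      nlinarith
    exact Nat.le_floor h
  have hj0u : (j0 : ℝ) ≤ 200 * u := by nlinarith
  have hj0u' : j0 ≤ 200 * u := by exact_mod_cast hj0u
  have hω : (0 : ℝ) < 1 / (20000 * u) := by positivity
  have hNm : ((S * j0 : ℕ) : ℝ) * (1 / (20000 * u)) ≤ 2 := by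
    push_cast
    have h1 : (S : ℝ) * j0 ≤ ((3 / 2 : ℝ) / θ + 1) * (20000 * u * θ) :=
      mul_le_mul hS2.le hj0le (Nat.cast_nonneg _) (by positivity)
    have h2 : ((3 / 2 : ℝ) / θ + 1) * (20000 * u * θ) = (3 / 2 + θ) * (20000 * u) := by
      field_simp
    rw [mul_one_div, div_le_iff₀ (by positivity)]
    rw [h2] at h1
    nlinarith
  have hNS : 21996 * u ≤ S * j0 := by
    have h1 : ((3 / 2 : ℝ) / θ) * (20000 * u * θ - 1) ≤ (S : ℝ) * j0 := by
      apply mul_le_mul hS1 (by linarith) _ (Nat.cast_nonneg _)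
      have : (1 : ℝ) ≤ 20000 * u * θ := by nlinarith
      linarith
    have h2 : ((3 / 2 : ℝ) / θ) * (20000 * u * θ - 1) = 30000 * u - (3 / 2) / θ := by
      field_simp
      ring
    have h3 : (3 / 2 : ℝ) / θ ≤ u := by
      rw [div_le_iff₀ hθ]
      linarith
    have h4' : ((21996 * u : ℕ) : ℝ) ≤ ((S * j0 : ℕ) : ℝ) := by
      push_cast
      linarith
    exact_mod_cast h4'
  have hax := hA (1 / (20000 * u)) j0 (S * j0) hω (by omega) hNm
  have hj0z : j0 ≤ 5499 * u := by omega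
  obtain ⟨μm, m1, m2⟩ := k2 j0 (by omega) _ _ hax (5499 * u) (21996 * u) hj0z hNS (by
    push_cast; linarith)
  obtain ⟨μp, p1, p2⟩ := k3 j0 (by omega) _ _ hax (5499 * u) (21996 * u) hj0z hNS (by
    push_cast; linarith)
  have hμ : ∀ j : ℕ, ∃ ν : ℝ, j ∈ Ico (5499 * u) (19679 * u) →
      UpP (1 / (20000 * u)) j0 (21996 * u - (j + 1)) (5499 * u) ν ∧
        ν * ((21996 * u - (j + 1) : ℕ) : ℝ) ≤ 3 * j0 * (11947 / 10000 + 1 / 1000) := by
    intro j
    by_cases hj : j ∈ Ico (5499 * u) (19679 * u)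
    · rw [Finset.mem_Ico] at hj
      obtain ⟨ν, n1, n2⟩ := k1 j0 (by omega) _ _ hax (5499 * u) (21996 * u - (j + 1)) hj0z
        (by omega) (by omega) (by omega)
      exact ⟨ν, fun _ => ⟨n1, n2⟩⟩
    · exact ⟨0, fun h => absurd h hj⟩
  choose μ hμ' using hμ
  refine ⟨u, j0, hu1', by omega, hj0z, ?_, μm, μp, μ, m1, p1, fun j hj => (hμ' j hj).1, ?_⟩
  · rw [mul_one_div, div_le_iff₀ (by positivity)]
    linarith
  set V : ℝ := (j0 : ℝ) / (5499 * u) with hV
  have hVpos : 0 < V := by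
    have : (0 : ℝ) < j0 := by exact_mod_cast (by omega : 0 < j0)
    positivity
  have e1 : V * (9764 / 10000 - 1 / 1000) ≤ μm := by
    have := m2
    push_cast at this
    exact this
  have e2 : μp ≤ V * (10235 / 10000 + 1 / 1000) := by
    have := p2
    push_cast at this
    exact this
  have e3 : ∑ j ∈ Ico (5499 * u) (19679 * u), gm j * (1 - (j : ℝ) / (19679 * u)) * μ j ≤
      V * (11947 / 10000 + 1 / 1000) * (7831 / 10000) := by
    have h7 := hu₀ u (Nat.le_add_right _ _)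
    calc ∑ j ∈ Ico (5499 * u) (19679 * u), gm j * (1 - (j : ℝ) / (19679 * u)) * μ j
        ≤ ∑ j ∈ Ico (5499 * u) (19679 * u), (V * (11947 / 10000 + 1 / 1000)) *
          (gm j * (1 - (j : ℝ) / (19679 * u)) * (3 * (5499 * u) / (21996 * u - ((j : ℝ) + 1)))) := by
          apply Finset.sum_le_sum
          intro j hj
          have hb := (hμ' j hj).2
          rw [Finset.mem_Ico] at hj
          have hcast : ((21996 * u - (j + 1) : ℕ) : ℝ) = 21996 * u - ((j : ℝ) + 1) := by
            rw [Nat.cast_sub (by omega)]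
            push_cast
            ring
          rw [hcast] at hb
          have hjr : (j : ℝ) + 1 ≤ 19679 * u := by exact_mod_cast hj.2
          have hD : (0 : ℝ) < 21996 * u - ((j : ℝ) + 1) := by linarith
          have hg := gm_nonneg_FSP j (by omega)
          have hw : 0 ≤ 1 - (j : ℝ) / (19679 * u) := by
            rw [sub_nonneg, div_le_one (by positivity)]
            linarith
          have hν : μ j ≤ 3 * j0 * (11947 / 10000 + 1 / 1000) / (21996 * u - ((j : ℝ) + 1)) := by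
            rw [le_div_iff₀ hD]
            exact hb
          have hrw : (V * (11947 / 10000 + 1 / 1000)) *
              (gm j * (1 - (j : ℝ) / (19679 * u)) * (3 * (5499 * u) / (21996 * u - ((j : ℝ) + 1)))) =
              gm j * (1 - (j : ℝ) / (19679 * u)) *
                (3 * j0 * (11947 / 10000 + 1 / 1000) / (21996 * u - ((j : ℝ) + 1))) := by
            rw [hV]
            field_simp
          rw [hrw]
          exact mul_le_mul_of_nonneg_left hν (mul_nonneg hg hw)
      _ = V * (11947 / 10000 + 1 / 1000) *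
          ∑ j ∈ Ico (5499 * u) (19679 * u),
            (gm j * (1 - (j : ℝ) / (19679 * u)) * (3 * (5499 * u) / (21996 * u - ((j : ℝ) + 1)))) := by
          rw [Finset.mul_sum]
      _ ≤ V * (11947 / 10000 + 1 / 1000) * (7831 / 10000) :=
          mul_le_mul_of_nonneg_left h7 (by positivity)
  nlinarith

end Pool.Agent.Helper22.KP
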